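import Pool.Agent.H441R4.EH.Sums

/-!
The bound outside few residue classes for each modulus.
-/

set_option autoImplicit false

open Finset Filter

namespace Pool.Agent.H441R4.EH

open Pool.Agent.H398R2.BV (Prim card_prim_le)
open Pool.Agent.Helper112
open Pool.Agent.H441R3.BV
open Pool.Agent.H300R2.WEH
open Pool.Agent.H442R2.EHI (piAP)

lemma pin_diff {m n : ℕ} (h : m ≤ n) : pin m ≤ pin n ∧ pin n - pin m ≤ (n - m : ℝ) := by
  unfold pin
  have hsub : (Icc 1 m).filter (fun p : ℕ => p.Prime) ⊆ (Icc 1 n).filter (fun p : ℕ => p.Prime) :=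
    filter_subset_filter _ (Icc_subset_Icc_right h)
  constructor
  · exact_mod_cast card_le_card hsub
  · have h1 : (Icc 1 n).filter (fun p : ℕ => p.Prime) ⊆
        (Icc 1 m).filter (fun p : ℕ => p.Prime) ∪ Ioc m n := by
      intro p hp
      rw [mem_filter, mem_Icc] at hp
      rw [mem_union, mem_filter, mem_Icc, mem_Ioc]
      by_cases hpm : p ≤ m
      · exact Or.inl ⟨⟨hp.1.1, hpm⟩, hp.2⟩
      · exact Or.inr ⟨by omega, hp.1.2⟩
    have h2 := (card_le_card h1).trans (card_union_le _ _)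
    rw [Nat.card_Ioc] at h2
    have h3 : (((Icc 1 n).filter (fun p : ℕ => p.Prime)).card : ℝ) ≤
        (((Icc 1 m).filter (fun p : ℕ => p.Prime)).card : ℝ) + ((n - m : ℕ) : ℝ) := by
      exact_mod_cast h2
    rw [Nat.cast_sub h] at h3
    linarith

lemma dE_nonneg (n d l : ℕ) : 0 ≤ dE n d l := abs_nonneg _

/-- the value at `n` is controlled by the value at one grid point -/
lemma dE_grid (N J n d l : ℕ) (hJ : 1 ≤ J) (hn : n ≤ N) (hd : 1 ≤ d) :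
    ∃ i ∈ Icc 1 J, dE n d l ≤ dE (gp N J i) d l +
      ((N : ℝ) / J + 1) * (1 / (Nat.totient d : ℝ)) := by
  have hφ : (1 : ℝ) ≤ Nat.totient d := by exact_mod_cast Nat.totient_pos.mpr (by omega)
  have hφ0 : (0 : ℝ) < Nat.totient d := by linarith
  obtain ⟨i, hi, hi1, hi2⟩ := exists_grid N J n hJ hn
  obtain ⟨s1, s2⟩ := gp_step N J i hJ
  set u := gp N J i with hu
  set v := gp N J (i + 1) with hv
  have p1 := piAP_mono hi1 d l
  have p2 := piAP_mono hi2 d l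
  obtain ⟨l1, l2⟩ := pin_diff hi1
  obtain ⟨l3, l4⟩ := pin_diff hi2
  have hu1 : (u : ℝ) ≤ n := by exact_mod_cast hi1
  have hv1 : (n : ℝ) ≤ v := by exact_mod_cast hi2
  have q1 : pin v / (Nat.totient d : ℝ) - pin n / (Nat.totient d : ℝ) ≤
      ((N : ℝ) / J + 1) / (Nat.totient d : ℝ) := by
    rw [← sub_div]
    gcongr
    linarith
  have q2 : pin n / (Nat.totient d : ℝ) - pin u / (Nat.totient d : ℝ) ≤
      ((N : ℝ) / J + 1) / (Nat.totient d : ℝ) := by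
    rw [← sub_div]
    gcongr
    linarith
  rw [mul_one_div]
  have r1 : piAP v d l - pin v / (Nat.totient d : ℝ) ≤ dE v d l := le_abs_self _
  have r2 : -(piAP u d l - pin u / (Nat.totient d : ℝ)) ≤ dE u d l := neg_le_abs _
  have v0 := dE_nonneg v d l
  have u0 := dE_nonneg u d l
  have hpos : 0 ≤ ((N : ℝ) / J + 1) / (Nat.totient d : ℝ) := by positivity
  rcases le_total 0 (piAP n d l - pin n / (Nat.totient d : ℝ)) with hs | hs
  · refine ⟨i + 1, by rw [mem_Icc]; omega, ?_⟩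
    rw [← hv]
    have : dE n d l = piAP n d l - pin n / (Nat.totient d : ℝ) := abs_of_nonneg hs
    rw [this]
    linarith
  · have hen : dE n d l = -(piAP n d l - pin n / (Nat.totient d : ℝ)) := abs_of_nonpos hs
    rcases Nat.eq_zero_or_pos i with h | h
    · refine ⟨1, by rw [mem_Icc]; omega, ?_⟩
      have hu0 : u = 0 := by
        rw [hu, h, gp]
        simp
      have : dE u d l = 0 := by
        rw [hu0]
        unfold dE piAP pin
        simp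
      have := dE_nonneg (gp N J 1) d l
      rw [hen]
      linarith
    · refine ⟨i, by rw [mem_Icc]; omega, ?_⟩
      rw [← hu, hen]
      linarith

lemma TT_mod (R v q a : ℕ) : TT R v q a = TT R v q (a % q) := by
  unfold TT
  have : ((a % q : ℕ) : ZMod q) = (a : ZMod q) := ZMod.natCast_mod a q
  rw [this]

lemma mod_mem_rr {a q : ℕ} (hq : 1 ≤ q) (ha : a.Coprime q) : a % q ∈ rr q := by
  unfold rr
  rw [mem_filter, mem_range]
  refine ⟨Nat.mod_lt _ (by omega), ?_⟩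
  unfold Nat.Coprime
  rw [← Nat.gcd_rec, Nat.gcd_comm]
  exact ha

/-- squares of the large conductor part, summed over the end points -/
noncomputable def tt (NN : Finset ℕ) (R q a : ℕ) : ℝ := ∑ v ∈ NN, ‖TT R v q a‖ ^ 2

lemma tt_nonneg (NN : Finset ℕ) (R q a : ℕ) : 0 ≤ tt NN R q a :=
  sum_nonneg fun _ _ => by positivity

noncomputable def Sg (NN : Finset ℕ) (R q : ℕ) : ℝ := ∑ a ∈ rr q, tt NN R q a

lemma Sg_nonneg (NN : Finset ℕ) (R q : ℕ) : 0 ≤ Sg NN R q :=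
  sum_nonneg fun _ _ => tt_nonneg _ _ _ _

/-- the setup: everything needed for large `N` -/
theorem setup (U r : ℕ) (hr : U + 4 ≤ r) : ∃ C : ℝ, 0 ≤ C ∧ ∃ x0 : ℕ, 3 ≤ x0 ∧ ∀ N : ℕ, x0 ≤ N →
    4 ≤ Real.log N ∧ ∃ (R : ℕ) (NN : Finset ℕ) (h : ℕ → ℝ), (∀ q, 0 ≤ h q) ∧
    (NN.card : ℝ) ≤ Real.log N ^ (U + 3) ∧
    ∑ q ∈ Icc 1 N, h q ≤ C * (N / Real.log N ^ U) ∧
    ∑ q ∈ Icc 1 N, (1 / (q : ℝ)) * Sg NN R q ≤ 8000 * N * Real.log N ^ (U + 7 + 2 * r) ∧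
    ∀ q, 1 ≤ q → q ≤ N → ∀ a, a.Coprime q → ∀ y, y ≤ N →
      ∃ v ∈ NN, dE y q a ≤ ‖TT R v q a‖ + h q := by
  set g := U + 3 with hg
  obtain ⟨C, hC, x1, hbv⟩ := char_bv (U + 2) g
  have evx : ∀ᶠ X : ℝ in atTop, (4:ℝ) ≤ Real.log X ∧ 2 * Real.log X ^ g ≤ X ^ (1/2 : ℝ) ∧
      1 * Real.log X ^ r ≤ X ^ (1/2:ℝ) ∧ 4 ≤ X ∧ 1 * Real.log X ^ (U + 3) ≤ X ^ (1:ℝ) :=
    (Real.tendsto_log_atTop.eventually (eventually_ge_atTop 4)).and
      ((Pool.Agent.H398R2.BV.ev_log 2 g (1/2) (by norm_num)).and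
      ((Pool.Agent.H398R2.BV.ev_log 1 r (1/2) (by norm_num)).and ((eventually_ge_atTop 4).and
      (Pool.Agent.H398R2.BV.ev_log 1 (U + 3) 1 (by norm_num)))))
  have evN := tendsto_natCast_atTop_atTop (R := ℝ) |>.eventually evx
  obtain ⟨x0, hx0⟩ := eventually_atTop.1 (evN.and (eventually_ge_atTop x1))
  refine ⟨8 * C + 16 + 2 ^ (g + 2) + 16, by positivity, max x0 3, le_max_right _ _, fun N hN => ?_⟩
  obtain ⟨⟨w1, w4, w6, w5, w7⟩, hNx1⟩ := hx0 N ((le_max_left _ _).trans hN)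
  refine ⟨w1, ?_⟩
  have hN4 : 4 ≤ N := by exact_mod_cast w5
  have hN1 : 1 ≤ N := by omega
  have hNr : (0:ℝ) < N := by linarith
  have hNr1 : (1:ℝ) ≤ N := by linarith
  set Λ := Real.log N with hΛ
  set L := ⌊Λ⌋₊ with hL
  have hΛ0 : 0 < Λ := by linarith
  have hΛ1 : 1 ≤ Λ := by linarith
  have hLΛ : (L:ℝ) ≤ Λ := Nat.floor_le hΛ0.le
  have hL1 : Λ < L + 1 := Nat.lt_floor_add_one Λ
  have hL2 : Λ ≤ 2 * L := by linarith
  have hL3 : (3:ℝ) < L := by linarith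
  have hL1' : 1 ≤ L := by
    have : (1:ℝ) ≤ L := by linarith
    exact_mod_cast this
  have hsqrt : Real.sqrt N = (N:ℝ) ^ (1/2:ℝ) := Real.sqrt_eq_rpow _
  rw [← hsqrt] at w4 w6
  rw [Real.rpow_one] at w7
  set s := Real.sqrt N with hs
  have hs0 : 0 < s := Real.sqrt_pos.2 hNr
  have hs2 : s ^ 2 = N := Real.sq_sqrt hNr.le
  have hs1 : 1 ≤ s := by nlinarith
  -- grid
  set J := L ^ g with hJ
  have hJ1 : 1 ≤ J := Nat.one_le_pow _ _ hL1'
  have hJN : 2 * (J:ℝ) ≤ s := by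
    refine le_trans ?_ w4
    rw [hJ]
    push_cast
    gcongr
  set NN : Finset ℕ := (Icc 1 J).image (gp N J) with hNN
  have hne : NN.Nonempty := by
    rw [hNN]
    exact (nonempty_Icc.2 hJ1).image _
  have hcard : (NN.card : ℝ) ≤ (L:ℝ) ^ g := by
    have h1 : NN.card ≤ J := by
      refine card_image_le.trans ?_
      simp
    calc (NN.card : ℝ) ≤ J := by exact_mod_cast h1
      _ = (L:ℝ) ^ g := by rw [hJ]; push_cast; rfl
  have hcard2 : (NN.card : ℝ) ≤ Λ ^ g := hcard.trans (pow_le_pow_left₀ (by positivity) hLΛ _)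
  have hmem : ∀ v ∈ NN, s ≤ (v:ℝ) ∧ v ≤ N := by
    intro v hv
    rw [hNN, mem_image] at hv
    obtain ⟨i, hi, rfl⟩ := hv
    exact gp_ge N J i hJ1 hi hJN
  have hs2' : 2 ≤ s := by nlinarith
  have hmem2 : ∀ v ∈ NN, 2 ≤ v ∧ v ≤ N := by
    intro v hv
    obtain ⟨h1, h2⟩ := hmem v hv
    have : (2:ℝ) ≤ v := by linarith
    exact ⟨by exact_mod_cast this, h2⟩
  -- the cut-off
  set R := ⌊s / Λ ^ r⌋₊ with hR
  have hsr : 1 ≤ s / Λ ^ r := by
    rw [le_div_iff₀ (by positivity)]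
    exact w6
  have hR1 : 1 ≤ R := Nat.le_floor (by exact_mod_cast hsr)
  have hRle : (R:ℝ) ≤ s / Λ ^ r := Nat.floor_le (by positivity)
  have hRge : s / Λ ^ r ≤ 2 * R := by
    have h1 : s / Λ ^ r < R + 1 := Nat.lt_floor_add_one _
    have h2 : (1:ℝ) ≤ R := by exact_mod_cast hR1
    linarith
  have hRr : (1:ℝ) ≤ R := by exact_mod_cast hR1
  have hR2 : R ^ 2 ≤ N := by
    have h1 : (R:ℝ) ≤ s := hRle.trans (div_le_self hs0.le (one_le_pow₀ hΛ1))
    have h2 : (R:ℝ) ^ 2 ≤ N := by nlinarith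
    exact_mod_cast h2
  have hbvN := hbv N hNx1 R hR1 hR2 NN hne hmem2 hcard
  set l := 1 + Λ with hl
  have hl2 : l ≤ 2 * Λ := by linarith
  have hl0 : 0 ≤ l := by linarith
  have hinv := sum_inv_tot N
  rw [← hΛ, ← hl] at hinv
  have hinv2 : ∑ e ∈ Icc 1 N, 1 / (Nat.totient e : ℝ) ≤ 4 * Λ ^ 2 := by
    refine hinv.trans ?_
    nlinarith
  set h : ℕ → ℝ := fun q => (1 / (Nat.totient q : ℝ)) *
      (∑ f ∈ q.divisors.filter (fun f => f ≠ 1), if f ≤ R then ∑ ψ ∈ Prim f, MX NN hne f ψ else 0) +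
      ((R:ℝ) ^ 2 * (2 * Λ) + 2 * Λ + (N / J + 1)) * (1 / (Nat.totient q : ℝ)) with hh
  have hM : ∀ f, 0 ≤ ∑ ψ ∈ Prim f, MX NN hne f ψ := fun f =>
    sum_nonneg fun ψ _ => MX_nonneg _ _ _ _
  refine ⟨R, NN, h, ?_, hcard2, ?_, ?_, ?_⟩
  · intro q
    have h1 : 0 ≤ ∑ f ∈ q.divisors.filter (fun f => f ≠ 1),
        if f ≤ R then ∑ ψ ∈ Prim f, MX NN hne f ψ else 0 := by
      apply sum_nonneg
      intro f _
      split_ifs
      · exact hM f
      · exact le_rfl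
    simp only [hh]
    positivity
  · simp only [hh]
    rw [sum_add_distrib, ← mul_sum]
    have a1 := small_sum N R hN1 NN hne
    rw [← hΛ, ← hl] at a1
    have hloglog : Real.log Λ ^ 2 ≤ Λ ^ 2 := by
      have h1 : 0 ≤ Real.log Λ := Real.log_nonneg hΛ1
      have h2 : Real.log Λ ≤ Λ := (Real.log_le_sub_one_of_pos hΛ0).trans (by linarith)
      exact pow_le_pow_left₀ h1 h2 2
    have a2 : (R:ℝ) * s * Real.log Λ ^ 2 ≤ N / Λ ^ (U + 2) := by
      rw [le_div_iff₀ (by positivity)]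
      calc (R:ℝ) * s * Real.log Λ ^ 2 * Λ ^ (U + 2) ≤ (s / Λ ^ r) * s * Λ ^ 2 * Λ ^ (U + 2) := by
            gcongr
        _ = s ^ 2 * (Λ ^ (U + 4) / Λ ^ r) := by ring
        _ ≤ s ^ 2 * 1 := by
            apply mul_le_mul_of_nonneg_left _ (by positivity)
            rw [div_le_one (by positivity)]
            exact pow_le_pow_right₀ hΛ1 hr
        _ = N := by rw [mul_one, hs2]
    have a3 : l ^ 2 * ∑ f ∈ Icc 2 R, (1 / (Nat.totient f : ℝ)) * ∑ ψ ∈ Prim f, MX NN hne f ψ ≤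
        8 * C * (N / Λ ^ U) := by
      calc l ^ 2 * ∑ f ∈ Icc 2 R, (1 / (Nat.totient f : ℝ)) * ∑ ψ ∈ Prim f, MX NN hne f ψ
          ≤ (2 * Λ) ^ 2 * (C * (N / Λ ^ (U + 2) + N / Λ ^ (U + 2))) := by
            apply mul_le_mul (pow_le_pow_left₀ hl0 hl2 2) _ _ (by positivity)
            · refine hbvN.trans ?_
              gcongr
            · exact sum_nonneg fun f _ => mul_nonneg (by positivity) (hM f)
        _ = 8 * C * (N / Λ ^ (U + 2) * Λ ^ 2) := by ring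
        _ = 8 * C * (N / Λ ^ U) := by rw [pow_add]; field_simp
    have b1 : (R:ℝ) ^ 2 * (2 * Λ) * (4 * Λ ^ 2) ≤ 8 * (N / Λ ^ U) := by
      have h1 : (R:ℝ) ^ 2 ≤ N / Λ ^ (U + 3) := by
        calc (R:ℝ) ^ 2 ≤ (s / Λ ^ r) ^ 2 := pow_le_pow_left₀ (by positivity) hRle 2
          _ = N / (Λ ^ r * Λ ^ r) := by rw [div_pow, hs2, ← sq]
          _ ≤ N / Λ ^ (U + 3) := by
              apply div_le_div_of_nonneg_left (by positivity) (by positivity)
              calc Λ ^ (U + 3) ≤ Λ ^ r := pow_le_pow_right₀ hΛ1 (by omega)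
                _ ≤ Λ ^ r * Λ ^ r := le_mul_of_one_le_left (by positivity) (one_le_pow₀ hΛ1)
      calc (R:ℝ) ^ 2 * (2 * Λ) * (4 * Λ ^ 2) ≤ N / Λ ^ (U + 3) * (2 * Λ) * (4 * Λ ^ 2) := by gcongr
        _ = 8 * (N / Λ ^ U) := by rw [pow_add]; field_simp; norm_num
    have b2 : (2 * Λ) * (4 * Λ ^ 2) ≤ 8 * (N / Λ ^ U) := by
      rw [mul_div_assoc', le_div_iff₀ (by positivity)]
      calc (2 * Λ) * (4 * Λ ^ 2) * Λ ^ U = 8 * (1 * Λ ^ (U + 3)) := by ring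
        _ ≤ 8 * N := by linarith
    have hJr : (0:ℝ) < J := by
      have : 0 < J := by omega
      exact_mod_cast this
    have b3 : ((N:ℝ) / J) * (4 * Λ ^ 2) ≤ 2 ^ (g + 2) * (N / Λ ^ U) := by
      have h5 : Λ ^ g ≤ 2 ^ g * (J:ℝ) := by
        rw [hJ]
        push_cast
        rw [← mul_pow]
        exact pow_le_pow_left₀ hΛ0.le hL2 _
      have h6 : (N:ℝ) / J ≤ 2 ^ g * (N / Λ ^ g) := by
        rw [mul_div_assoc', div_le_div_iff₀ hJr (by positivity)]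
        nlinarith
      calc ((N:ℝ) / J) * (4 * Λ ^ 2) ≤ 2 ^ g * (N / Λ ^ g) * (4 * Λ ^ 2) := by gcongr
        _ ≤ 2 ^ g * (N / Λ ^ (U + 2)) * (4 * Λ ^ 2) := by
            have : Λ ^ (U + 2) ≤ Λ ^ g := pow_le_pow_right₀ hΛ1 (by omega)
            gcongr
        _ = 2 ^ (g + 2) * (N / Λ ^ U) := by rw [pow_add, pow_add]; field_simp; ring
    have b4 : (1:ℝ) * (4 * Λ ^ 2) ≤ 8 * (N / Λ ^ U) := by
      refine le_trans ?_ b2
      nlinarith [sq_nonneg Λ]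
    have b5 : ((R:ℝ) ^ 2 * (2 * Λ) + 2 * Λ + (N / J + 1)) * ∑ q ∈ Icc 1 N, 1 / (Nat.totient q : ℝ) ≤
        (24 + 2 ^ (g + 2)) * (N / Λ ^ U) := by
      calc _ ≤ ((R:ℝ) ^ 2 * (2 * Λ) + 2 * Λ + (N / J + 1)) * (4 * Λ ^ 2) := by
            apply mul_le_mul_of_nonneg_left hinv2 (by positivity)
        _ = (R:ℝ) ^ 2 * (2 * Λ) * (4 * Λ ^ 2) + (2 * Λ) * (4 * Λ ^ 2) +
            ((N:ℝ) / J) * (4 * Λ ^ 2) + 1 * (4 * Λ ^ 2) := by ring
        _ ≤ (24 + 2 ^ (g + 2)) * (N / Λ ^ U) := by nlinarith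
    have hu0 : 0 ≤ (N:ℝ) / Λ ^ U := by positivity
    nlinarith
  · -- the large conductors
    have c1 : ∑ q ∈ Icc 1 N, (1 / (q : ℝ)) * Sg NN R q =
        ∑ v ∈ NN, ∑ q ∈ Icc 1 N, (1 / (q : ℝ)) * ∑ a ∈ rr q, ‖TT R v q a‖ ^ 2 := by
      rw [sum_comm]
      apply sum_congr rfl
      intro q _
      unfold Sg tt
      rw [sum_comm, mul_sum]
    rw [c1]
    have c2 : ∀ v ∈ NN, ∑ q ∈ Icc 1 N, (1 / (q : ℝ)) * ∑ a ∈ rr q, ‖TT R v q a‖ ^ 2 ≤
        8000 * N * Λ ^ (4 + 2 * r) := by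
      intro v hv
      refine (core N R v hN1 hR1 (hmem2 v hv).2).trans ?_
      rw [← hΛ, ← hl]
      have d1 : (N:ℝ) ^ 2 / (R:ℝ) ^ 2 ≤ 4 * N * Λ ^ (2 * r) := by
        rw [div_le_iff₀ (by positivity)]
        have e1 : s ≤ 2 * R * Λ ^ r := by
          rw [div_le_iff₀ (by positivity)] at hRge
          exact hRge
        calc (N:ℝ) ^ 2 = N * s ^ 2 := by rw [hs2]; ring
          _ ≤ N * (2 * R * Λ ^ r) ^ 2 := by gcongr
          _ = 4 * N * Λ ^ (2 * r) * (R:ℝ) ^ 2 := by ring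
      have d2 : 1 ≤ Λ ^ (2 * r) := one_le_pow₀ hΛ1
      have d3 : 24 * (N:ℝ) ^ 2 / (R:ℝ) ^ 2 + 104 * N ≤ 200 * N * Λ ^ (2 * r) := by
        have e1 : 24 * (N:ℝ) ^ 2 / (R:ℝ) ^ 2 = 24 * ((N:ℝ) ^ 2 / (R:ℝ) ^ 2) := by ring
        rw [e1]
        nlinarith
      calc l ^ 4 * (24 * (N:ℝ) ^ 2 / (R:ℝ) ^ 2 + 104 * N) ≤ (2 * Λ) ^ 4 * (200 * N * Λ ^ (2 * r)) := by
            gcongr
        _ = 3200 * N * Λ ^ (4 + 2 * r) := by rw [pow_add]; ring
        _ ≤ 8000 * N * Λ ^ (4 + 2 * r) := by gcongr; norm_num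
    refine (sum_le_sum c2).trans ?_
    rw [sum_const, nsmul_eq_mul]
    calc (NN.card : ℝ) * (8000 * N * Λ ^ (4 + 2 * r)) ≤ Λ ^ g * (8000 * N * Λ ^ (4 + 2 * r)) := by
          gcongr
      _ = 8000 * N * Λ ^ (U + 7 + 2 * r) := by
          rw [hg]
          ring
  · intro q hq1 hqN a ha y hy
    have hφ1 : (1 : ℝ) ≤ Nat.totient q := by exact_mod_cast Nat.totient_pos.mpr (by omega)
    have hφ : (0 : ℝ) < Nat.totient q := by linarith
    obtain ⟨i, hi, a2⟩ := dE_grid N J y q a hJ1 hy hq1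
    have hv : gp N J i ∈ NN := mem_image_of_mem _ hi
    refine ⟨gp N J i, hv, ?_⟩
    have a3 := class_split R q (gp N J i) a hq1 ha
    have a4 := small_part R q (gp N J i) hq1 NN hne hv
    have a5 := omega_log q hq1
    have hq0 : (0:ℝ) < q := by exact_mod_cast hq1
    have a6 : Real.log q ≤ Λ := Real.log_le_log hq0 (by exact_mod_cast hqN)
    have a7 : (q.primeFactors.card : ℝ) ≤ 2 * Λ := by linarith
    have a8 : (1 / (Nat.totient q : ℝ)) * ∑ χ ∈ XX q (fun f => f ≤ R), ‖PS (gp N J i) q χ‖ ≤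
        (1 / (Nat.totient q : ℝ)) * ((∑ f ∈ q.divisors.filter (fun f => f ≠ 1),
          if f ≤ R then ∑ ψ ∈ Prim f, MX NN hne f ψ else 0) + (R:ℝ) ^ 2 * (2 * Λ)) := by
      apply mul_le_mul_of_nonneg_left _ (by positivity)
      refine a4.trans ?_
      gcongr
    have a9 : (q.primeFactors.card : ℝ) * (1 / (Nat.totient q : ℝ)) ≤
        2 * Λ * (1 / (Nat.totient q : ℝ)) := by gcongr
    simp only [hh]
    nlinarith

end Pool.Agent.H441R4.EH
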