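import Pool.Agent.H441R4.EH.Fin1

/-!
The bound outside few residue classes for each modulus: final form.
-/

set_option autoImplicit false

open Finset Filter

namespace Pool.Agent.H441R4.EH

open Pool.Agent.H441R3.BV
open Pool.Agent.H300R2.WEH
open Pool.Agent.H442R2.EHI (piAP)

open Classical in
/-- the classes with a large error, `w` = the allowed number -/
noncomputable def bad (NN : Finset ℕ) (R : ℕ) (w : ℝ) (q : ℕ) : Finset ℕ :=
  (rr q).filter (fun a => Sg NN R q < w * tt NN R q a)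

lemma bad_sub (NN : Finset ℕ) (R : ℕ) (w : ℝ) (q : ℕ) : bad NN R w q ⊆ rr q := by
  classical
  unfold bad
  exact filter_subset _ _

lemma mem_bad {NN : Finset ℕ} {R : ℕ} {w : ℝ} {q a : ℕ} :
    a ∈ bad NN R w q ↔ a ∈ rr q ∧ Sg NN R q < w * tt NN R q a := by
  classical
  unfold bad
  rw [mem_filter]

lemma bad_card (NN : Finset ℕ) (R : ℕ) (w : ℝ) (hw : 0 ≤ w) (q : ℕ) :
    ((bad NN R w q).card : ℝ) ≤ w := by
  rcases (bad NN R w q).eq_empty_or_nonempty with h | h
  · rw [h]; simpa using hw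
  · have h1 : ∑ _a ∈ bad NN R w q, Sg NN R q < ∑ a ∈ bad NN R w q, w * tt NN R q a :=
      sum_lt_sum_of_nonempty h fun a ha => (mem_bad.1 ha).2
    rw [sum_const, nsmul_eq_mul, ← mul_sum] at h1
    have h2 : ∑ a ∈ bad NN R w q, tt NN R q a ≤ Sg NN R q :=
      sum_le_sum_of_subset_of_nonneg (bad_sub NN R w q) fun _ _ _ => tt_nonneg _ _ _ _
    have h3 : ((bad NN R w q).card : ℝ) * Sg NN R q < w * Sg NN R q :=
      lt_of_lt_of_le h1 (mul_le_mul_of_nonneg_left h2 hw)
    have h4 := Sg_nonneg NN R q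
    by_contra hcon
    have h5 := mul_le_mul_of_nonneg_right (not_le.1 hcon).le h4
    linarith

theorem final1 (U : ℕ) : ∃ (B : ℕ) (C : ℝ), ∀ N : ℕ, 3 ≤ N → ∃ E : ℕ → Finset ℕ,
    (∀ q, E q ⊆ rr q) ∧ (∀ q, ((E q).card : ℝ) ≤ (q:ℝ) ^ 2 / N * Real.log N ^ B) ∧
    ∀ a y : ℕ → ℕ, (∀ q, y q ≤ N) →
      ∑ q ∈ (Icc 1 N).filter (fun q => (a q).Coprime q ∧ a q % q ∉ E q), dE (y q) q (a q) ≤
        C * (N / Real.log N ^ U) := by
  obtain ⟨C, hC, x0, hx03, hset⟩ := setup U (U + 4) le_rfl
  set r := U + 4 with hr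
  set B := U + 7 + 2 * r + 2 + 2 * U with hB
  refine ⟨B, C + 200 + (2 * x0 ^ 2) * Real.log x0 ^ U, fun N hN => ?_⟩
  have hlogx0 : 0 ≤ Real.log x0 := Real.log_natCast_nonneg _
  rcases Nat.lt_or_ge N x0 with hlt | hge
  · -- small `N`
    refine ⟨fun _ => ∅, fun _ => empty_subset _, fun q => ?_, ?_⟩
    · have : 0 ≤ Real.log N := Real.log_natCast_nonneg _
      simp only [card_empty, Nat.cast_zero]
      positivity
    · intro a y hy
      have hN3 : (3:ℝ) ≤ N := by exact_mod_cast hN
      have hNx : (N:ℝ) ≤ x0 := by exact_mod_cast hlt.le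
      have hlog3 : (1:ℝ) ≤ Real.log N := by
        exact one_le_log hN
      have hb : ∀ q ∈ (Icc 1 N).filter (fun q => (a q).Coprime q ∧ a q % q ∉ (∅ : Finset ℕ)),
          dE (y q) q (a q) ≤ 2 * N := by
        intro q hq
        rw [mem_filter, mem_Icc] at hq
        have hφ1 : (1 : ℝ) ≤ Nat.totient q := by exact_mod_cast Nat.totient_pos.mpr (by omega)
        have hyN : ((y q : ℕ) : ℝ) ≤ N := by exact_mod_cast hy q
        have h1 : piAP (y q) q (a q) ≤ N := by
          unfold piAP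
          have h2 : ((Icc 1 (y q)).filter (fun p => p.Prime ∧ p ≡ a q [MOD q])).card ≤ y q := by
            refine (card_filter_le _ _).trans ?_
            simp
          have h3 : (((Icc 1 (y q)).filter (fun p => p.Prime ∧ p ≡ a q [MOD q])).card : ℝ) ≤
            (y q : ℝ) := by exact_mod_cast h2
          linarith
        have h2 : pin (y q) ≤ N := by
          unfold pin
          have h2 : ((Icc 1 (y q)).filter (fun p : ℕ => p.Prime)).card ≤ y q := by
            refine (card_filter_le _ _).trans ?_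
            simp
          have h3 : (((Icc 1 (y q)).filter (fun p : ℕ => p.Prime)).card : ℝ) ≤
            (y q : ℝ) := by exact_mod_cast h2
          linarith
        have h3 : 0 ≤ piAP (y q) q (a q) := by unfold piAP; positivity
        have h4 : 0 ≤ pin (y q) := by unfold pin; positivity
        have h5 : pin (y q) / (Nat.totient q : ℝ) ≤ N := (div_le_self h4 hφ1).trans h2
        have h6 : 0 ≤ pin (y q) / (Nat.totient q : ℝ) := by positivity
        unfold dE
        rw [abs_le]
        constructor <;> linarith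
      refine (sum_le_sum hb).trans ?_
      rw [sum_const, nsmul_eq_mul]
      have hc : (((Icc 1 N).filter (fun q => (a q).Coprime q ∧ a q % q ∉ (∅ : Finset ℕ))).card : ℝ) ≤
          N := by
        have : ((Icc 1 N).filter (fun q => (a q).Coprime q ∧ a q % q ∉ (∅ : Finset ℕ))).card ≤ N := by
          refine (card_filter_le _ _).trans ?_
          simp
        exact_mod_cast this
      have hlogN : Real.log N ≤ Real.log x0 := Real.log_le_log (by linarith) hNx
      have hpow : Real.log N ^ U ≤ Real.log x0 ^ U := pow_le_pow_left₀ (by linarith) hlogN U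
      have hpos : 0 < Real.log N ^ U := by positivity
      have hone : 1 ≤ Real.log x0 ^ U / Real.log N ^ U := by
        rw [le_div_iff₀ hpos]; linarith
      have hP : 0 ≤ Real.log x0 ^ U / Real.log N ^ U := by linarith
      calc (((Icc 1 N).filter (fun q => (a q).Coprime q ∧ a q % q ∉ (∅ : Finset ℕ))).card : ℝ) *
            (2 * N) ≤ x0 * (2 * x0) := by
            apply mul_le_mul (hc.trans hNx) _ (by positivity) (by positivity)
            linarith
        _ = 2 * (x0:ℝ) ^ 2 * 1 * 1 := by ring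
        _ ≤ 2 * (x0:ℝ) ^ 2 * (Real.log x0 ^ U / Real.log N ^ U) * N := by
            have : (1:ℝ) ≤ N := by linarith
            gcongr
        _ = (2 * (x0:ℝ) ^ 2) * Real.log x0 ^ U * (N / Real.log N ^ U) := by ring
        _ ≤ (C + 200 + (2 * x0 ^ 2) * Real.log x0 ^ U) * (N / Real.log N ^ U) := by
            apply mul_le_mul_of_nonneg_right _ (by positivity)
            linarith
  · obtain ⟨w1, R, NN, h, hh0, hcard, hsum, hS, hpt⟩ := hset N hge
    set Λ := Real.log N with hΛ
    have hΛ0 : 0 < Λ := by linarith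
    have hNr : (0:ℝ) < N := by
      have : 0 < N := by omega
      exact_mod_cast this
    set w : ℕ → ℝ := fun q => (q:ℝ) ^ 2 / N * Λ ^ B with hw
    have hw0 : ∀ q, 0 ≤ w q := fun q => by simp only [hw]; positivity
    refine ⟨fun q => bad NN R (w q) q, fun q => bad_sub _ _ _ _, fun q => bad_card _ _ _ (hw0 q) _, ?_⟩
    intro a y hy
    have hpt2 : ∀ q ∈ (Icc 1 N).filter (fun q => (a q).Coprime q ∧ a q % q ∉ bad NN R (w q) q),
        dE (y q) q (a q) ≤ Real.sqrt (1 / (q:ℝ)) *
          Real.sqrt ((N / Λ ^ B) * ((1 / (q:ℝ)) * Sg NN R q)) + h q := by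
      intro q hq
      rw [mem_filter, mem_Icc] at hq
      obtain ⟨⟨hq1, hqN⟩, hco, hnb⟩ := hq
      obtain ⟨v, hv, h1⟩ := hpt q hq1 hqN (a q) hco (y q) (hy q)
      refine h1.trans ?_
      have hq0 : (0:ℝ) < q := by exact_mod_cast hq1
      have hmem := mod_mem_rr hq1 hco
      have h2 : w q * tt NN R q (a q % q) ≤ Sg NN R q := by
        by_contra hcon
        exact hnb (mem_bad.2 ⟨hmem, not_le.1 hcon⟩)
      have h3 : ‖TT R v q (a q)‖ ^ 2 ≤ tt NN R q (a q % q) := by
        rw [TT_mod]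
        unfold tt
        exact single_le_sum (f := fun v => ‖TT R v q (a q % q)‖ ^ 2)
          (fun _ _ => by positivity) hv
      have h4 : ‖TT R v q (a q)‖ ≤ Real.sqrt (1 / (q:ℝ)) *
          Real.sqrt ((N / Λ ^ B) * ((1 / (q:ℝ)) * Sg NN R q)) := by
        rw [← Real.sqrt_mul (by positivity)]
        apply Real.le_sqrt_of_sq_le
        have hwq : 0 < w q := by simp only [hw]; positivity
        have h5 : ‖TT R v q (a q)‖ ^ 2 ≤ Sg NN R q / w q := by
          rw [le_div_iff₀ hwq]
          calc ‖TT R v q (a q)‖ ^ 2 * w q ≤ tt NN R q (a q % q) * w q := by gcongr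
            _ = w q * tt NN R q (a q % q) := mul_comm _ _
            _ ≤ _ := h2
        refine h5.trans (le_of_eq ?_)
        simp only [hw]
        field_simp
      linarith
    refine (sum_le_sum hpt2).trans ?_
    have hall : ∑ q ∈ (Icc 1 N).filter (fun q => (a q).Coprime q ∧ a q % q ∉ bad NN R (w q) q),
        (Real.sqrt (1 / (q:ℝ)) * Real.sqrt ((N / Λ ^ B) * ((1 / (q:ℝ)) * Sg NN R q)) + h q) ≤
        ∑ q ∈ Icc 1 N,
        (Real.sqrt (1 / (q:ℝ)) * Real.sqrt ((N / Λ ^ B) * ((1 / (q:ℝ)) * Sg NN R q)) + h q) := by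
      apply sum_le_sum_of_subset_of_nonneg (filter_subset _ _)
      intro q _ _
      have := hh0 q
      positivity
    refine hall.trans ?_
    rw [sum_add_distrib]
    have hcs := Real.sum_sqrt_mul_sqrt_le (Icc 1 N) (f := fun q : ℕ => 1 / (q:ℝ))
      (g := fun q : ℕ => (N / Λ ^ B) * ((1 / (q:ℝ)) * Sg NN R q))
      (fun q => by positivity) (fun q => by
        have := Sg_nonneg NN R q
        positivity)
    have hA : ∑ q ∈ Icc 1 N, 1 / (q:ℝ) ≤ 4 * Λ ^ 2 := by
      have h1 : ∑ q ∈ Icc 1 N, 1 / (q:ℝ) ≤ ∑ q ∈ Icc 1 N, 1 / (Nat.totient q : ℝ) := by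
        apply sum_le_sum
        intro q hq
        rw [mem_Icc] at hq
        have hφ : (0 : ℝ) < Nat.totient q := by exact_mod_cast Nat.totient_pos.mpr (by omega)
        have hφd : (Nat.totient q : ℝ) ≤ q := by exact_mod_cast Nat.totient_le q
        gcongr
      refine h1.trans ((sum_inv_tot N).trans ?_)
      rw [← hΛ]
      nlinarith
    have hBB : ∑ q ∈ Icc 1 N, (N / Λ ^ B) * ((1 / (q:ℝ)) * Sg NN R q) ≤
        8000 * N ^ 2 / Λ ^ (2 + 2 * U) := by
      rw [← mul_sum]
      calc (N / Λ ^ B) * ∑ q ∈ Icc 1 N, (1 / (q:ℝ)) * Sg NN R q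
          ≤ (N / Λ ^ B) * (8000 * N * Λ ^ (U + 7 + 2 * r)) := by gcongr
        _ = 8000 * N ^ 2 / Λ ^ (2 + 2 * U) := by
            have : Λ ^ B = Λ ^ (U + 7 + 2 * r) * Λ ^ (2 + 2 * U) := by
              rw [← pow_add]
              congr 1
              omega
            rw [this]
            field_simp
    have hfin : Real.sqrt (∑ q ∈ Icc 1 N, 1 / (q:ℝ)) *
        Real.sqrt (∑ q ∈ Icc 1 N, (N / Λ ^ B) * ((1 / (q:ℝ)) * Sg NN R q)) ≤
        200 * (N / Λ ^ U) := by
      rw [← Real.sqrt_mul (sum_nonneg fun _ _ => by positivity)]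
      apply Real.sqrt_le_iff.2
      refine ⟨by positivity, ?_⟩
      calc (∑ q ∈ Icc 1 N, 1 / (q:ℝ)) *
            (∑ q ∈ Icc 1 N, (N / Λ ^ B) * ((1 / (q:ℝ)) * Sg NN R q))
          ≤ (4 * Λ ^ 2) * (8000 * N ^ 2 / Λ ^ (2 + 2 * U)) := by
            apply mul_le_mul hA hBB _ (by positivity)
            apply sum_nonneg
            intro q _
            have := Sg_nonneg NN R q
            positivity
        _ = 32000 * (N / Λ ^ U) ^ 2 := by
            rw [pow_add, pow_mul']
            field_simp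
            norm_num
        _ ≤ (200 * (N / Λ ^ U)) ^ 2 := by
            have : 0 ≤ ((N:ℝ) / Λ ^ U) ^ 2 := by positivity
            nlinarith
    have hnn : 0 ≤ (2 * (x0:ℝ) ^ 2) * Real.log x0 ^ U * (N / Λ ^ U) := by positivity
    have e : (C + 200 + (2 * (x0:ℝ) ^ 2) * Real.log x0 ^ U) * (N / Λ ^ U) = C * (N / Λ ^ U) +
        200 * (N / Λ ^ U) + (2 * (x0:ℝ) ^ 2) * Real.log x0 ^ U * (N / Λ ^ U) := by ring
    rw [e]
    linarith

end Pool.Agent.H441R4.EH
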