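import Pool.Agent.H441R4.EH.Fin2

/-!
Least primes in progressions: for most moduli `d`, the number of classes `a` with
`p(d, a) > N` is at most `(d²/N) (log N)^B`, for a given `N ≥ d`.
-/

set_option autoImplicit false

namespace Pool.Agent.H441R4.EH

open Finset

lemma pin_ge (x : ℕ) (hx : 3 ≤ x) :
    (x : ℝ) ≤ 5 * Pool.Agent.H441R4.EH.pin x * Real.log x := by
  have h1 := Chebyshev.psi_ge x
  have h2 := Chebyshev.psi_le_primeCounting_mul_log x
  have h3 : Pool.Agent.H441R4.EH.pin x = (Nat.primeCounting x : ℝ) := by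
    unfold Pool.Agent.H441R4.EH.pin
    congr 1
    rw [Nat.primeCounting, Nat.primeCounting', Nat.count_eq_card_filter_range]
    congr 1
    ext p
    simp only [Finset.mem_filter, Finset.mem_Icc, Finset.mem_range]
    constructor
    · rintro ⟨⟨h1, h2⟩, h3⟩; exact ⟨by omega, h3⟩
    · rintro ⟨h1, h3⟩; exact ⟨⟨h3.one_le, by omega⟩, h3⟩
  rw [h3]
  have hlog2 : 0.6931471803 < Real.log 2 := Real.log_two_gt_d9
  have hx' : (3 : ℝ) ≤ x := by exact_mod_cast hx
  have h4 : Real.log ((x : ℝ) + 1) ≤ Real.log 4 + ((x : ℝ) + 1) / 4 - 1 := by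
    have h5 : Real.log (((x : ℝ) + 1) / 4) ≤ ((x : ℝ) + 1) / 4 - 1 :=
      Real.log_le_sub_one_of_pos (by positivity)
    have h6 : Real.log (((x : ℝ) + 1) / 4) = Real.log ((x : ℝ) + 1) - Real.log 4 :=
      Real.log_div (by positivity) (by norm_num)
    linarith
  have hlog4 : Real.log 4 = 2 * Real.log 2 := by
    rw [show (4 : ℝ) = 2 ^ 2 by norm_num, Real.log_pow]; norm_num
  have hlog2' : Real.log 2 < 0.6931471808 := Real.log_two_lt_d9
  nlinarith

open Classical in
/-- the residues `0 ≤ a < d` coprime to `d` with `p(d, a) > N`: every prime `p` of the form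
`a + k d`, `k ≥ 0`, is larger than `N` -/
noncomputable def late (N d : ℕ) : Finset ℕ :=
  (range d).filter (fun a => a.Coprime d ∧ ∀ p k : ℕ, p.Prime → p = a + k * d → N < p)

lemma mem_late {N d a : ℕ} : a ∈ late N d ↔
    a < d ∧ a.Coprime d ∧ ∀ p k : ℕ, p.Prime → p = a + k * d → N < p := by
  classical
  unfold late
  rw [mem_filter, mem_range]

open Classical in
/-- the `d` with `D < d ≤ 2 D` for which more than `(d²/N) (log N)^B` classes have
`p(d, a) > N` -/
noncomputable def badModuli (B : ℝ) (N D : ℕ) : Finset ℕ :=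
  (Ioc D (2 * D)).filter (fun d => (d : ℝ) ^ 2 / N * Real.log N ^ B < ((late N d).card : ℝ))

/-- **Few late classes for almost all moduli.** -/
theorem few_late (A : ℝ) : ∃ B C : ℝ, ∀ D N : ℕ, 3 ≤ N → D ≤ N →
    ((badModuli B N D).card : ℝ) ≤ C * (D / Real.log N ^ A) := by
  classical
  obtain ⟨B, C, h⟩ := Pool.Agent.H441R4.EH.final1 (⌈A⌉₊ + 1)
  set U := ⌈A⌉₊ with hU
  refine ⟨B, 10 * max C 0, fun D N hN hDN => ?_⟩
  obtain ⟨E, hE1, hE2, hE3⟩ := h N hN
  have hlog : 1 ≤ Real.log N := Pool.Agent.H441R3.BV.one_le_log hN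
  have hlog0 : 0 < Real.log N := by linarith
  have hN0 : (0 : ℝ) < N := by
    have : 0 < N := by omega
    exact_mod_cast this
  set Λ := Real.log N with hΛ
  -- a bad class outside `E`
  have hex : ∀ d ∈ badModuli B N D, d ≤ N ∧ ∃ a, a ∈ late N d ∧ a ∉ E d := by
    intro d hd
    unfold badModuli at hd
    rw [mem_filter, mem_Ioc, Real.rpow_natCast] at hd
    obtain ⟨⟨hd1, hd2⟩, hd3⟩ := hd
    constructor
    · by_contra hcon
      have h1 : (N : ℝ) < d := by exact_mod_cast not_le.1 hcon
      have h2 : ((late N d).card : ℝ) ≤ d := by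
        have : (late N d).card ≤ d := by
          unfold late
          refine (card_filter_le _ _).trans ?_
          rw [card_range]
        exact_mod_cast this
      have h3 : (d : ℝ) ≤ (d : ℝ) ^ 2 / N * Λ ^ B := by
        calc (d : ℝ) = (d : ℝ) * N / N * 1 := by field_simp
          _ ≤ (d : ℝ) ^ 2 / N * Λ ^ B := by
            rw [sq]
            gcongr
            exact one_le_pow₀ hlog
      linarith
    · by_contra hcon
      push Not at hcon
      have h1 : late N d ⊆ E d := fun a ha => hcon a ha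
      have h2 : ((late N d).card : ℝ) ≤ ((E d).card : ℝ) := by exact_mod_cast card_le_card h1
      have h3 := hE2 d
      linarith
  -- choice of classes
  have hch : ∀ d : ℕ, ∃ a : ℕ, d ∈ badModuli B N D → a ∈ late N d ∧ a ∉ E d := by
    intro d
    by_cases hd : d ∈ badModuli B N D
    · obtain ⟨_, a, ha⟩ := hex d hd
      exact ⟨a, fun _ => ha⟩
    · exact ⟨0, fun h => absurd h hd⟩
  choose a ha using hch
  have hsum := hE3 a (fun _ => N) (fun _ => le_rfl)
  set P : ℝ := Pool.Agent.H441R4.EH.pin N with hP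
  have hP0 : 0 ≤ P := by rw [hP]; unfold Pool.Agent.H441R4.EH.pin; positivity
  have hPN : (N : ℝ) ≤ 5 * P * Λ := pin_ge N hN
  have hPpos : 0 < P := by
    by_contra hcon
    have h1 : P * Λ ≤ 0 := mul_nonpos_of_nonpos_of_nonneg (not_lt.1 hcon) hlog0.le
    linarith
  have hlow : ∑ _d ∈ badModuli B N D, P / (2 * D) ≤
      ∑ q ∈ (Icc 1 N).filter (fun q => (a q).Coprime q ∧ a q % q ∉ E q),
        Pool.Agent.H441R4.EH.dE N q (a q) := by
    have hsub : badModuli B N D ⊆
        (Icc 1 N).filter (fun q => (a q).Coprime q ∧ a q % q ∉ E q) := by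
      intro d hd
      obtain ⟨h1, h2⟩ := ha d hd
      rw [mem_late] at h1
      have h3 := (hex d hd).1
      unfold badModuli at hd
      rw [mem_filter, mem_Ioc] at hd
      rw [mem_filter, mem_Icc]
      refine ⟨⟨by omega, h3⟩, h1.2.1, ?_⟩
      rwa [Nat.mod_eq_of_lt h1.1]
    refine le_trans (sum_le_sum fun d hd => ?_)
      (sum_le_sum_of_subset_of_nonneg hsub fun q _ _ => abs_nonneg _)
    obtain ⟨h1, h2⟩ := ha d hd
    rw [mem_late] at h1
    unfold badModuli at hd
    rw [mem_filter, mem_Ioc] at hd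
    have hd0 : 0 < d := by omega
    have hφ : (0 : ℝ) < Nat.totient d := by exact_mod_cast Nat.totient_pos.mpr hd0
    have hφd : (Nat.totient d : ℝ) ≤ 2 * D := by
      have : Nat.totient d ≤ 2 * D := (Nat.totient_le d).trans hd.1.2
      exact_mod_cast this
    have h4 : Pool.Agent.H442R2.EHI.piAP N d (a d) = 0 := by
      unfold Pool.Agent.H442R2.EHI.piAP
      rw [Nat.cast_eq_zero, card_eq_zero, filter_eq_empty_iff]
      rintro p hp ⟨hpp, hmod⟩
      rw [mem_Icc] at hp
      have h5 : p % d = a d := by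
        have : p % d = a d % d := hmod
        rw [this, Nat.mod_eq_of_lt h1.1]
      have h6 : p = a d + p / d * d := by
        have := Nat.mod_add_div p d
        rw [h5] at this
        rw [← this, Nat.mul_comm d]
        congr 2
        rw [Nat.add_mul_div_right _ _ hd0, Nat.div_eq_of_lt h1.1, zero_add]
      have h7 := h1.2.2 p (p / d) hpp h6
      omega
    unfold Pool.Agent.H441R4.EH.dE
    rw [h4, zero_sub, abs_neg, abs_of_nonneg (by positivity)]
    gcongr
  rw [sum_const, nsmul_eq_mul] at hlow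
  set K : ℝ := ((badModuli B N D).card : ℝ) with hK
  have hK0 : 0 ≤ K := Nat.cast_nonneg _
  have h1 : K * (P / (2 * D)) ≤ C * (N / Λ ^ (U + 1)) := hlow.trans hsum
  have hAU : Λ ^ A ≤ Λ ^ U := by
    rw [← Real.rpow_natCast]
    exact Real.rpow_le_rpow_of_exponent_le hlog (Nat.le_ceil A)
  have hA0 : 0 < Λ ^ A := Real.rpow_pos_of_pos hlog0 A
  rcases Nat.eq_zero_or_pos D with hD | hD
  · have h2 : badModuli B N D = ∅ := by
      unfold badModuli
      rw [hD]
      simp
    rw [hK, h2, hD]
    simp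
  · have hDr : (0 : ℝ) < D := by exact_mod_cast hD
    have h2 : K * P ≤ 2 * D * (max C 0 * (5 * P * Λ / Λ ^ (U + 1))) := by
      have h3 : C * (N / Λ ^ (U + 1)) ≤ max C 0 * (5 * P * Λ / Λ ^ (U + 1)) := by
        apply mul_le_mul (le_max_left _ _) _ (by positivity) (le_max_right _ _)
        gcongr
      have h4 := h1.trans h3
      rw [mul_div_assoc', div_le_iff₀ (by positivity)] at h4
      linarith
    have h3 : 2 * D * (max C 0 * (5 * P * Λ / Λ ^ (U + 1))) =
        (10 * max C 0 * (D / Λ ^ U)) * P := by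
      rw [pow_succ]
      field_simp
      ring
    rw [h3] at h2
    have h4 := le_of_mul_le_mul_right h2 hPpos
    refine h4.trans ?_
    have : 0 ≤ max C 0 := le_max_right _ _
    gcongr

end Pool.Agent.H441R4.EH
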