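import Pool.Agent.H441R4.EH.Least

/-!
Uniformity in `N`, and the mean value of the least prime.
-/

set_option autoImplicit false

open Finset Filter

namespace Pool.Agent.H441R4.EH

lemma late_anti {M N d : ℕ} (h : M ≤ N) : late N d ⊆ late M d := by
  intro a ha
  rw [mem_late] at ha ⊢
  exact ⟨ha.1, ha.2.1, fun p k hp hpk => lt_of_le_of_lt h (ha.2.2 p k hp hpk)⟩

lemma late_card_le (N d : ℕ) : ((late N d).card : ℝ) ≤ d := by
  classical
  have : (late N d).card ≤ d := by
    unfold late
    refine (card_filter_le _ _).trans ?_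
    rw [card_range]
  exact_mod_cast this

/-- the good moduli -/
def Good (B : ℝ) (d : ℕ) : Prop :=
  2 ≤ Real.log d ∧
  ∀ N : ℕ, 1 ≤ N → ((late N d).card : ℝ) ≤ (d : ℝ) ^ 2 * Real.log d ^ B / N

theorem uniform (A : ℝ) (hA : 0 < A) : ∃ B C : ℝ, 0 < B ∧ 0 ≤ C ∧ ∀ D : ℕ, 2 ≤ D →
    ∃ S : Finset ℕ, (S.card : ℝ) ≤ C * (D / Real.log D ^ A) ∧
      ∀ d ∈ Ioc D (2 * D), d ∉ S → Good B d := by
  classical
  obtain ⟨B0, C0, h⟩ := few_late (A + 1)
  set B1 := max B0 0 with hB1
  -- for large `D`
  have ev1 : ∀ᶠ X : ℝ in atTop, 2 ≤ Real.log X ∧ 5 * (4 * Real.log X) ^ B1 < X ∧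
      2 * (4 * Real.log X) ^ B1 ≤ Real.log X ^ (3 * B1 + 1) ∧ 3 ≤ X := by
    have e1 : ∀ᶠ X : ℝ in atTop, (4:ℝ) ≤ Real.log X :=
      Real.tendsto_log_atTop.eventually (eventually_ge_atTop 4)
    have e2 : ∀ᶠ X : ℝ in atTop, 5 * (4 * Real.log X) ^ B1 < X := by
      have h1 := (isLittleO_log_rpow_atTop (r := 1 / (2 * (B1 + 1))) (by positivity)).bound
        (show (0:ℝ) < 1 / 4 by norm_num)
      filter_upwards [h1, eventually_gt_atTop (1:ℝ), eventually_gt_atTop (25:ℝ)] with X h2 h3 h4
      have hlog : 0 < Real.log X := Real.log_pos h3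
      have hX0 : 0 < X := by linarith
      rw [Real.norm_eq_abs, Real.norm_eq_abs, abs_of_pos hlog,
        abs_of_pos (Real.rpow_pos_of_pos hX0 _)] at h2
      have h5 : 4 * Real.log X ≤ X ^ (1 / (2 * (B1 + 1))) := by linarith
      have hB10 : 0 ≤ B1 := le_max_right _ _
      have h6 : (4 * Real.log X) ^ B1 ≤ X ^ (1/2 : ℝ) := by
        calc (4 * Real.log X) ^ B1 ≤ (X ^ (1 / (2 * (B1 + 1)))) ^ B1 :=
              Real.rpow_le_rpow (by positivity) h5 hB10
          _ = X ^ ((1 / (2 * (B1 + 1))) * B1) := by rw [← Real.rpow_mul hX0.le]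
          _ ≤ X ^ (1/2 : ℝ) := by
              apply Real.rpow_le_rpow_of_exponent_le h3.le
              rw [div_mul_eq_mul_div, one_mul, div_le_div_iff₀ (by positivity) (by norm_num)]
              linarith
      have h7 : X = X ^ (1/2 : ℝ) * X ^ (1/2 : ℝ) := by
        rw [← Real.rpow_add hX0]
        norm_num
      have h8 : 5 < X ^ (1/2 : ℝ) := by
        rw [← Real.sqrt_eq_rpow]
        apply Real.lt_sqrt_of_sq_lt
        linarith
      have h9 : 0 < X ^ (1/2 : ℝ) := by linarith
      calc 5 * (4 * Real.log X) ^ B1 ≤ 5 * X ^ (1/2 : ℝ) := by gcongr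
        _ < X ^ (1/2 : ℝ) * X ^ (1/2 : ℝ) := by gcongr
        _ = X := h7.symm
    filter_upwards [e1, e2, eventually_ge_atTop (3:ℝ)] with X h1 h2 h3
    refine ⟨by linarith, h2, ?_, h3⟩
    have hB10 : 0 ≤ B1 := le_max_right _ _
    have hl : 0 < Real.log X := by linarith
    calc 2 * (4 * Real.log X) ^ B1 ≤ Real.log X * (Real.log X * Real.log X) ^ B1 := by
          apply mul_le_mul (by linarith) _ (by positivity) (by linarith)
          apply Real.rpow_le_rpow (by positivity) _ hB10
          gcongr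
      _ = Real.log X ^ (2 * B1 + 1) := by
          rw [← sq, ← Real.rpow_natCast, ← Real.rpow_mul hl.le, mul_comm, ← Real.rpow_add_one hl.ne']
          norm_num
      _ ≤ Real.log X ^ (3 * B1 + 1) := by
          apply Real.rpow_le_rpow_of_exponent_le (by linarith)
          linarith
  have evN := tendsto_natCast_atTop_atTop (R := ℝ) |>.eventually ev1
  obtain ⟨D0, hD0⟩ := eventually_atTop.1 evN
  have hlogD0 : 0 ≤ Real.log D0 := Real.log_natCast_nonneg _
  refine ⟨3 * B1 + 1, 5 * max C0 0 + (Real.log D0 + 1) ^ A, by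
    have : 0 ≤ B1 := le_max_right _ _
    positivity, by
    have : 0 ≤ max C0 0 := le_max_right _ _
    positivity, fun D hD => ?_⟩
  have hB10 : 0 ≤ B1 := le_max_right _ _
  have hC00 : 0 ≤ max C0 0 := le_max_right _ _
  have hDr2 : (2:ℝ) ≤ D := by exact_mod_cast hD
  have hDr : (0:ℝ) < D := by linarith
  have hlogD : 0 < Real.log D := Real.log_pos (by linarith)
  rcases Nat.lt_or_ge D D0 with hlt | hge
  · refine ⟨Ioc D (2 * D), ?_, fun d hd hd2 => absurd hd hd2⟩
    rw [Nat.card_Ioc]
    have e1 : ((2 * D - D : ℕ) : ℝ) = D := by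
      have : 2 * D - D = D := by omega
      rw [this]
    rw [e1]
    have h1 : Real.log D ≤ Real.log D0 + 1 := by
      have : Real.log D ≤ Real.log D0 := Real.log_le_log hDr (by exact_mod_cast hlt.le)
      linarith
    have h2 : Real.log D ^ A ≤ (Real.log D0 + 1) ^ A := Real.rpow_le_rpow hlogD.le h1 hA.le
    have h3 : 0 < Real.log D ^ A := Real.rpow_pos_of_pos hlogD A
    calc (D:ℝ) = Real.log D ^ A * (D / Real.log D ^ A) := by field_simp
      _ ≤ (Real.log D0 + 1) ^ A * (D / Real.log D ^ A) := by gcongr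
      _ ≤ (5 * max C0 0 + (Real.log D0 + 1) ^ A) * (D / Real.log D ^ A) := by
          apply mul_le_mul_of_nonneg_right _ (by positivity)
          linarith
  · obtain ⟨w1, w2, w3, w4⟩ := hD0 D hge
    set Λ := Real.log D with hΛ
    set J := 2 * (Nat.log 2 D + 1) with hJ
    have hJD : D ^ 2 ≤ 2 ^ J := by
      rw [hJ, mul_comm, pow_mul]
      exact Nat.pow_le_pow_left (Nat.lt_pow_succ_log_self (by norm_num) D).le 2
    have hJD2 : 2 ^ J ≤ 4 * D ^ 2 := by
      have h1 : 2 ^ Nat.log 2 D ≤ D := Nat.pow_log_le_self 2 (by omega)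
      rw [hJ, mul_comm, pow_mul, pow_succ]
      calc (2 ^ Nat.log 2 D * 2) ^ 2 ≤ (D * 2) ^ 2 := Nat.pow_le_pow_left (Nat.mul_le_mul_right 2 h1) 2
        _ = 4 * D ^ 2 := by ring
    have hlogNj : ∀ j, j ≤ J → Real.log ((2 ^ j * D : ℕ) : ℝ) ≤ 4 * Λ := by
      intro j hj
      have h1 : 2 ^ j * D ≤ 4 * D ^ 3 := by
        calc 2 ^ j * D ≤ 2 ^ J * D := Nat.mul_le_mul_right D (Nat.pow_le_pow_right (by norm_num) hj)
          _ ≤ 4 * D ^ 2 * D := Nat.mul_le_mul_right D hJD2
          _ = 4 * D ^ 3 := by ring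
      have h2 : ((2 ^ j * D : ℕ) : ℝ) ≤ 4 * (D:ℝ) ^ 3 := by exact_mod_cast h1
      have h3 : (0:ℝ) < ((2 ^ j * D : ℕ) : ℝ) := by
        have : 0 < 2 ^ j * D := by positivity
        exact_mod_cast this
      have h4 := Real.log_le_log h3 h2
      rw [Real.log_mul (by norm_num) (by positivity), Real.log_pow] at h4
      have h5 : Real.log 4 ≤ 2 := by
        rw [show (4 : ℝ) = 2 ^ 2 by norm_num, Real.log_pow]
        have := Real.log_two_lt_d9
        push_cast
        linarith
      push_cast at h4 ⊢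
      linarith
    have hlogNj' : ∀ j, Λ ≤ Real.log ((2 ^ j * D : ℕ) : ℝ) := by
      intro j
      apply Real.log_le_log hDr
      have : D ≤ 2 ^ j * D := Nat.le_mul_of_pos_left D (by positivity)
      exact_mod_cast this
    refine ⟨(range (J + 1)).biUnion (fun j => badModuli B0 (2 ^ j * D) D), ?_, ?_⟩
    · have h1 : (((range (J + 1)).biUnion (fun j => badModuli B0 (2 ^ j * D) D)).card : ℝ) ≤
          ∑ j ∈ range (J + 1), ((badModuli B0 (2 ^ j * D) D).card : ℝ) := by
        exact_mod_cast card_biUnion_le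
      refine h1.trans ?_
      have h2 : ∀ j ∈ range (J + 1), ((badModuli B0 (2 ^ j * D) D).card : ℝ) ≤
          max C0 0 * (D / Λ ^ (A + 1)) := by
        intro j _
        have h3 : D ≤ 2 ^ j * D := Nat.le_mul_of_pos_left D (by positivity)
        have h4 : 3 ≤ D := by exact_mod_cast w4
        refine (h D (2 ^ j * D) (by omega) h3).trans ?_
        have h5 := hlogNj' j
        have h6 : Λ ^ (A + 1) ≤ Real.log ((2 ^ j * D : ℕ) : ℝ) ^ (A + 1) :=
          Real.rpow_le_rpow hlogD.le h5 (by linarith)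
        have h7 : 0 < Λ ^ (A + 1) := Real.rpow_pos_of_pos hlogD _
        apply mul_le_mul (le_max_left _ _) _ (by positivity) hC00
        exact div_le_div_of_nonneg_left hDr.le h7 h6
      refine (sum_le_sum h2).trans ?_
      rw [sum_const, card_range, nsmul_eq_mul]
      have h3 : ((J + 1 : ℕ) : ℝ) ≤ 5 * Λ := by
        have h4 := Pool.Agent.H441R3.BV.nlog_le D (by omega)
        rw [hJ]
        push_cast
        have h5 : (Nat.log 2 D : ℝ) * Real.log 2 ≤ Λ := by
          have h6 : (2:ℝ) ^ Nat.log 2 D ≤ D := by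
            exact_mod_cast Nat.pow_log_le_self 2 (by omega)
          have h7 := Real.log_le_log (by positivity) h6
          rwa [Real.log_pow] at h7
        have h6 := Real.log_two_gt_d9
        have h7 : (0:ℝ) ≤ Nat.log 2 D := Nat.cast_nonneg _
        nlinarith
      have h4 : 0 < Λ ^ A := Real.rpow_pos_of_pos hlogD A
      calc ((J + 1 : ℕ) : ℝ) * (max C0 0 * (D / Λ ^ (A + 1))) ≤
            5 * Λ * (max C0 0 * (D / Λ ^ (A + 1))) := by
            apply mul_le_mul_of_nonneg_right h3
            have : 0 < Λ ^ (A + 1) := Real.rpow_pos_of_pos hlogD _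
            positivity
        _ = 5 * max C0 0 * (D / Λ ^ A) := by
            rw [Real.rpow_add_one hlogD.ne']
            field_simp
        _ ≤ (5 * max C0 0 + (Real.log D0 + 1) ^ A) * (D / Λ ^ A) := by
            apply mul_le_mul_of_nonneg_right _ (by positivity)
            have : 0 ≤ (Real.log D0 + 1) ^ A := by positivity
            linarith
    · intro d hd hdS
      rw [mem_Ioc] at hd
      have hnot : ∀ j, j ≤ J → ((late (2 ^ j * D) d).card : ℝ) ≤
          (d : ℝ) ^ 2 / (2 ^ j * D : ℕ) * (4 * Λ) ^ B1 := by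
        intro j hj
        have h1 : d ∉ badModuli B0 (2 ^ j * D) D := by
          intro hcon
          exact hdS (mem_biUnion.2 ⟨j, mem_range.2 (by omega), hcon⟩)
        unfold badModuli at h1
        rw [mem_filter, mem_Ioc, not_and] at h1
        have h2 := not_lt.1 (h1 hd)
        refine h2.trans ?_
        apply mul_le_mul_of_nonneg_left _ (by positivity)
        have h3 : 1 ≤ Real.log ((2 ^ j * D : ℕ) : ℝ) := by
          have := hlogNj' j
          linarith
        calc Real.log ((2 ^ j * D : ℕ) : ℝ) ^ B0 ≤ Real.log ((2 ^ j * D : ℕ) : ℝ) ^ B1 :=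
              Real.rpow_le_rpow_of_exponent_le h3 (le_max_left _ _)
          _ ≤ (4 * Λ) ^ B1 := Real.rpow_le_rpow (by linarith) (hlogNj j hj) hB10
      have hdD : (D:ℝ) ≤ d := by exact_mod_cast hd.1.le
      have hdD2 : (d:ℝ) ≤ 2 * D := by exact_mod_cast hd.2
      have hd0 : (0:ℝ) < d := by linarith
      have hlogd : Λ ≤ Real.log d := Real.log_le_log hDr hdD
      have hempty : late (2 ^ J * D) d = ∅ := by
        have h1 := hnot J le_rfl
        have h2 : (d : ℝ) ^ 2 / (2 ^ J * D : ℕ) * (4 * Λ) ^ B1 < 1 := by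
          have h3 : (D:ℝ) ^ 3 ≤ ((2 ^ J * D : ℕ) : ℝ) := by
            have : D ^ 3 ≤ 2 ^ J * D := by
              calc D ^ 3 = D ^ 2 * D := by ring
                _ ≤ 2 ^ J * D := Nat.mul_le_mul_right D hJD
            exact_mod_cast this
          have hp : 0 ≤ (4 * Λ) ^ B1 := by positivity
          calc (d : ℝ) ^ 2 / (2 ^ J * D : ℕ) * (4 * Λ) ^ B1 ≤
                (2 * (D:ℝ)) ^ 2 / (D:ℝ) ^ 3 * (4 * Λ) ^ B1 := by gcongr
            _ = 4 * (4 * Λ) ^ B1 / D := by field_simp; norm_num
            _ < 1 := by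
                rw [div_lt_one hDr]
                linarith
        have h3 : ((late (2 ^ J * D) d).card : ℝ) < 1 := lt_of_le_of_lt h1 h2
        have h4 : (late (2 ^ J * D) d).card < 1 := by exact_mod_cast h3
        rw [← card_eq_zero]
        omega
      have hmain : ∀ N : ℕ, 1 ≤ N → ((late N d).card : ℝ) ≤
          (d : ℝ) ^ 2 * Real.log d ^ (3 * B1 + 1) / N := by
        intro N hN
        have hNr : (0:ℝ) < N := by exact_mod_cast hN
        have hone : 1 ≤ Real.log d ^ (3 * B1 + 1) :=
          Real.one_le_rpow (by linarith) (by positivity)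
        rw [le_div_iff₀ hNr]
        rcases Nat.lt_or_ge N D with h1 | h1
        · have h2 : (N:ℝ) ≤ d := by
            have : (N:ℝ) ≤ D := by exact_mod_cast h1.le
            linarith
          calc ((late N d).card : ℝ) * N ≤ d * d * 1 := by
                rw [mul_one]
                exact mul_le_mul (late_card_le N d) h2 hNr.le hd0.le
            _ ≤ (d:ℝ) ^ 2 * Real.log d ^ (3 * B1 + 1) := by
                rw [← sq]
                gcongr
        · rcases Nat.lt_or_ge N (2 ^ J * D) with h2 | h2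
          · -- dyadic position
            set j := Nat.log 2 (N / D) with hj
            have hND : 1 ≤ N / D := (Nat.one_le_div_iff (by omega)).2 h1
            have hj1 : 2 ^ j ≤ N / D := Nat.pow_log_le_self 2 (by omega)
            have hj2 : N / D < 2 ^ (j + 1) := Nat.lt_pow_succ_log_self (by norm_num) _
            have hjN : 2 ^ j * D ≤ N := (Nat.mul_le_mul_right D hj1).trans (Nat.div_mul_le_self N D)
            have hjN2 : N < 2 * (2 ^ j * D) := by
              have h3 : N < (N / D + 1) * D := by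
                have e1 := Nat.div_add_mod N D
                have e2 := Nat.mod_lt N (show 0 < D by omega)
                rw [Nat.add_mul, one_mul, Nat.mul_comm (N / D) D]
                omega
              calc N < (N / D + 1) * D := h3
                _ ≤ 2 ^ (j + 1) * D := Nat.mul_le_mul_right D (by omega)
                _ = 2 * (2 ^ j * D) := by ring
            have hjJ : j ≤ J := by
              by_contra hcon
              have h3 : 2 ^ J ≤ 2 ^ j := Nat.pow_le_pow_right (by norm_num) (by omega)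
              have h4 : 2 ^ J * D ≤ 2 ^ j * D := Nat.mul_le_mul_right D h3
              omega
            have h3 : ((late N d).card : ℝ) ≤ ((late (2 ^ j * D) d).card : ℝ) := by
              exact_mod_cast card_le_card (late_anti hjN)
            have h4 := h3.trans (hnot j hjJ)
            have h5 : (N:ℝ) ≤ 2 * ((2 ^ j * D : ℕ) : ℝ) := by exact_mod_cast hjN2.le
            have h6 : (0:ℝ) < ((2 ^ j * D : ℕ) : ℝ) := by
              have : 0 < 2 ^ j * D := by positivity
              exact_mod_cast this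
            calc ((late N d).card : ℝ) * N ≤
                  ((d : ℝ) ^ 2 / (2 ^ j * D : ℕ) * (4 * Λ) ^ B1) * (2 * ((2 ^ j * D : ℕ) : ℝ)) := by
                  apply mul_le_mul h4 h5 hNr.le (by positivity)
              _ = (d:ℝ) ^ 2 * (2 * (4 * Λ) ^ B1) := by field_simp
              _ ≤ (d:ℝ) ^ 2 * Λ ^ (3 * B1 + 1) := by gcongr
              _ ≤ (d:ℝ) ^ 2 * Real.log d ^ (3 * B1 + 1) := by
                  have : 0 ≤ Λ := hlogD.le
                  gcongr
          · have h3 : late N d = ∅ := by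
              have := late_anti (d := d) h2
              rw [hempty] at this
              exact subset_empty.1 this
            rw [h3, card_empty, Nat.cast_zero, zero_mul]
            positivity
      exact ⟨by linarith, hmain⟩

/-- layer-cake: a mean value from the counts. -/
theorem mean_of_counts (B : ℝ) (hB : 0 ≤ B) (d : ℕ) (hL : 2 ≤ Real.log d) (s : Finset ℕ)
    (hs : (s.card : ℝ) ≤ d) (f : ℕ → ℕ)
    (h : ∀ N : ℕ, 1 ≤ N → ((s.filter (fun a => N < f a)).card : ℝ) ≤
      (d : ℝ) ^ 2 * Real.log d ^ B / N) :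
    ∑ a ∈ s, (f a : ℝ) ≤ (d : ℝ) ^ 2 * Real.log d ^ (2 * B + 4) := by
  set L := Real.log d with hLdef
  have hL0 : 0 < L := by linarith
  have hd1 : (1:ℝ) < d := by
    by_contra hcon
    have : L ≤ 0 := Real.log_nonpos (Nat.cast_nonneg d) (not_lt.1 hcon)
    linarith
  set K : ℝ := (d : ℝ) ^ 2 * L ^ B with hK
  have hLB : 1 ≤ L ^ B := Real.one_le_rpow (by linarith) hB
  have hd2 : (d:ℝ) ≤ (d:ℝ) ^ 2 := by nlinarith
  have hdK : (d:ℝ) ≤ K := by
    calc (d:ℝ) ≤ (d:ℝ) ^ 2 * 1 := by rw [mul_one]; exact hd2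
      _ ≤ K := by rw [hK]; gcongr
  have hK1 : 1 ≤ K := by linarith
  set M : ℕ := ⌊K⌋₊ + 1 with hM
  have hMK : K < M := by rw [hM]; push_cast; exact Nat.lt_floor_add_one K
  have hfM : ∀ a ∈ s, f a ≤ M := by
    intro a ha
    by_contra hcon
    have h1 := h M (by omega)
    have h2 : (1:ℝ) ≤ ((s.filter (fun a => M < f a)).card : ℝ) := by
      have : 0 < (s.filter (fun a => M < f a)).card :=
        card_pos.2 ⟨a, mem_filter.2 ⟨ha, not_le.1 hcon⟩⟩
      exact_mod_cast this
    have h3 : K / M < 1 := by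
      rw [div_lt_one (by linarith)]
      exact hMK
    linarith
  have hsum : ∑ a ∈ s, (f a : ℝ) = ∑ N ∈ range M, ((s.filter (fun a => N < f a)).card : ℝ) := by
    have h1 : ∀ a ∈ s, (f a : ℝ) = ∑ N ∈ range M, if N < f a then (1:ℝ) else 0 := by
      intro a ha
      rw [← sum_filter, sum_const, nsmul_eq_mul, mul_one]
      congr 1
      have : (range M).filter (fun N => N < f a) = range (f a) := by
        ext N
        have := hfM a ha
        simp only [mem_filter, mem_range]
        omega
      rw [this, card_range]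
    rw [sum_congr rfl h1, sum_comm]
    refine sum_congr rfl fun N _ => ?_
    rw [← sum_filter, sum_const, nsmul_eq_mul, mul_one]
  rw [hsum, hM, sum_range_succ']
  have h1 : ∑ N ∈ range ⌊K⌋₊, ((s.filter (fun a => N + 1 < f a)).card : ℝ) ≤
      K * (1 + Real.log K) := by
    calc ∑ N ∈ range ⌊K⌋₊, ((s.filter (fun a => N + 1 < f a)).card : ℝ) ≤
          ∑ N ∈ range ⌊K⌋₊, K * (((N + 1 : ℕ) : ℝ))⁻¹ := by
          refine sum_le_sum fun N _ => ?_
          rw [← div_eq_mul_inv]
          exact h (N + 1) (by omega)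
      _ = K * ((harmonic ⌊K⌋₊ : ℚ) : ℝ) := by
          rw [← mul_sum, harmonic]
          push_cast
          rfl
      _ ≤ K * (1 + Real.log K) := by
          apply mul_le_mul_of_nonneg_left _ (by linarith)
          refine (harmonic_le_one_add_log ⌊K⌋₊).trans ?_
          have h3 : Real.log (⌊K⌋₊ : ℝ) ≤ Real.log K := by
            apply Real.log_le_log
            · have : 0 < ⌊K⌋₊ := Nat.floor_pos.2 hK1
              exact_mod_cast this
            · exact Nat.floor_le (by linarith)
          linarith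
  have h2 : ((s.filter (fun a => 0 < f a)).card : ℝ) ≤ d := by
    refine le_trans ?_ hs
    exact_mod_cast card_filter_le _ _
  have hlogK : Real.log K ≤ (2 + B) * L := by
    rw [hK, Real.log_mul (by positivity) (by positivity), Real.log_pow, Real.log_rpow hL0]
    have h3 : Real.log L ≤ L := by
      have := Real.log_le_sub_one_of_pos hL0
      linarith
    push_cast
    rw [← hLdef]
    nlinarith
  have h3 : (3 + B) ≤ L ^ (3 + B) := by
    calc (3 + B) ≤ (2:ℝ) ^ (3 + B) := by
          have e1 : Real.exp (Real.log 2 * (3 + B)) = (2:ℝ) ^ (3 + B) := by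
            rw [Real.rpow_def_of_pos (by norm_num)]
          rw [← e1]
          have e2 := Real.add_one_le_exp (Real.log 2 * (3 + B) / 2)
          have e3 : Real.exp (Real.log 2 * (3 + B)) =
              Real.exp (Real.log 2 * (3 + B) / 2) * Real.exp (Real.log 2 * (3 + B) / 2) := by
            rw [← Real.exp_add]; congr 1; ring
          have e4 := Real.log_two_gt_d9
          have e5 : 0 ≤ Real.log 2 * (3 + B) / 2 := by positivity
          rw [e3]
          have e6 : 0.6931471803 * (3 + B) / 2 + 1 ≤ Real.exp (Real.log 2 * (3 + B) / 2) := by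
            refine le_trans ?_ e2
            have : 0.6931471803 * (3 + B) ≤ Real.log 2 * (3 + B) := by gcongr
            linarith
          have e7 : 0 ≤ 0.6931471803 * (3 + B) / 2 + 1 := by positivity
          calc 3 + B ≤ (0.6931471803 * (3 + B) / 2 + 1) * (0.6931471803 * (3 + B) / 2 + 1) := by
                nlinarith
            _ ≤ _ := by gcongr
      _ ≤ L ^ (3 + B) := Real.rpow_le_rpow (by norm_num) hL (by linarith)
  calc ∑ N ∈ range ⌊K⌋₊, ((s.filter (fun a => N + 1 < f a)).card : ℝ) +
        ((s.filter (fun a => 0 < f a)).card : ℝ) ≤ K * (1 + Real.log K) + d := by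
        linarith
    _ ≤ K * (1 + (2 + B) * L) + K := by gcongr
    _ ≤ K * ((3 + B) * L) := by
        have : 2 + (2 + B) * L ≤ (3 + B) * L := by linarith
        nlinarith
    _ ≤ K * (L ^ (3 + B) * L) := by gcongr
    _ = (d : ℝ) ^ 2 * L ^ (2 * B + 4) := by
        rw [hK, ← Real.rpow_add_one hL0.ne', mul_assoc, ← Real.rpow_add hL0]
        congr 2
        ring

end Pool.Agent.H441R4.EH
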