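import Pool.Agent.H441R4.EH.Chars

/-!
Sums over the moduli.
-/

set_option autoImplicit false

open Finset Filter

namespace Pool.Agent.H441R4.EH

open Pool.Agent.H398R2.BV (Prim card_prim_le)
open Pool.Agent.Helper112
open Pool.Agent.H441R3.BV
open Pool.Agent.H442R2.EHI (piAP)

lemma block (v F : ℕ) (hF : 1 ≤ F) :
    ∑ f ∈ Ioc F (2 * F), (1 / (Nat.totient f : ℝ)) * ((2 * ∑ ψ ∈ Prim f, ‖PS v f ψ‖ ^ 2) / f) ≤
      12 * (v:ℝ) ^ 2 / (F:ℝ) ^ 2 + 48 * v := by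
  classical
  have hF0 : (0:ℝ) < F := by exact_mod_cast hF
  have h1 := mult_large_sieve v (2 * F) (fun n => ((if n.Prime then (1:ℝ) else 0 : ℝ) : ℂ))
  have e1 : ∑ n ∈ Icc 1 v, ‖((if n.Prime then (1:ℝ) else 0 : ℝ) : ℂ)‖ ^ 2 ≤ v := by
    calc ∑ n ∈ Icc 1 v, ‖((if n.Prime then (1:ℝ) else 0 : ℝ) : ℂ)‖ ^ 2 ≤ ∑ n ∈ Icc 1 v, (1:ℝ) := by
          apply sum_le_sum
          intro n _
          split_ifs <;> simp
      _ = v := by rw [sum_const, Nat.card_Icc, Nat.add_sub_cancel]; simp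
  have h2 : ∑ f ∈ Icc 1 (2 * F), ((f : ℝ) / (Nat.totient f : ℝ)) *
      ∑ ψ ∈ Prim f, ‖PS v f ψ‖ ^ 2 ≤ 6 * (v + 4 * (F:ℝ) ^ 2) * v := by
    refine le_trans h1 ?_
    push_cast
    have : (v:ℝ) + (2 * F) ^ 2 = v + 4 * (F:ℝ) ^ 2 := by ring
    rw [this]
    gcongr
  have h3 : ∑ f ∈ Ioc F (2 * F), (1 / (Nat.totient f : ℝ)) *
      ((2 * ∑ ψ ∈ Prim f, ‖PS v f ψ‖ ^ 2) / f) ≤
      (2 / (F:ℝ) ^ 2) * ∑ f ∈ Icc 1 (2 * F), ((f : ℝ) / (Nat.totient f : ℝ)) *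
      ∑ ψ ∈ Prim f, ‖PS v f ψ‖ ^ 2 := by
    rw [mul_sum]
    calc ∑ f ∈ Ioc F (2 * F), (1 / (Nat.totient f : ℝ)) *
          ((2 * ∑ ψ ∈ Prim f, ‖PS v f ψ‖ ^ 2) / f)
        ≤ ∑ f ∈ Ioc F (2 * F), 2 / (F:ℝ) ^ 2 * (((f : ℝ) / (Nat.totient f : ℝ)) *
          ∑ ψ ∈ Prim f, ‖PS v f ψ‖ ^ 2) := by
          apply sum_le_sum
          intro f hf
          rw [mem_Ioc] at hf
          have hf1 : (F:ℝ) ≤ f := by exact_mod_cast hf.1.le
          have hf0 : (0:ℝ) < f := lt_of_lt_of_le hF0 hf1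
          have hφ : (0 : ℝ) < Nat.totient f := by exact_mod_cast Nat.totient_pos.mpr (by omega)
          set G := ∑ ψ ∈ Prim f, ‖PS v f ψ‖ ^ 2 with hG
          have hG0 : 0 ≤ G := sum_nonneg fun _ _ => by positivity
          have e2 : (1 / (Nat.totient f : ℝ)) * ((2 * G) / f) =
              2 / (f:ℝ) ^ 2 * (((f : ℝ) / (Nat.totient f : ℝ)) * G) := by
            field_simp
          rw [e2]
          gcongr
      _ ≤ _ := by
          apply sum_le_sum_of_subset_of_nonneg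
          · intro f hf
            rw [mem_Ioc] at hf
            rw [mem_Icc]
            omega
          · intro f _ _
            have : 0 ≤ ∑ ψ ∈ Prim f, ‖PS v f ψ‖ ^ 2 := sum_nonneg fun _ _ => by positivity
            positivity
  refine h3.trans ?_
  calc (2 / (F:ℝ) ^ 2) * ∑ f ∈ Icc 1 (2 * F), ((f : ℝ) / (Nat.totient f : ℝ)) *
      ∑ ψ ∈ Prim f, ‖PS v f ψ‖ ^ 2 ≤ (2 / (F:ℝ) ^ 2) * (6 * (v + 4 * (F:ℝ) ^ 2) * v) := by gcongr
    _ = 12 * (v:ℝ) ^ 2 / (F:ℝ) ^ 2 + 48 * v := by field_simp; ring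

lemma chain (g : ℕ → ℝ) (R n : ℕ) :
    ∑ f ∈ Ioc R (R * 2 ^ n), g f = ∑ i ∈ range n, ∑ f ∈ Ioc (R * 2 ^ i) (2 * (R * 2 ^ i)), g f := by
  induction n with
  | zero => simp
  | succ n ih =>
    rw [sum_range_succ, ← ih]
    have e : 2 * (R * 2 ^ n) = R * 2 ^ (n + 1) := by ring
    rw [e]
    symm
    apply sum_Ioc_consecutive
    · exact Nat.le_mul_of_pos_right R (by positivity)
    · rw [pow_succ]
      nlinarith [Nat.zero_le (R * 2 ^ n)]

theorem core (N R v : ℕ) (hN : 1 ≤ N) (hR : 1 ≤ R) (hv : v ≤ N) :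
    ∑ d ∈ Icc 1 N, (1 / (d : ℝ)) * ∑ a ∈ rr d, ‖TT R v d a‖ ^ 2 ≤
      (1 + Real.log N) ^ 4 * (24 * (N:ℝ) ^ 2 / (R:ℝ) ^ 2 + 104 * N) := by
  classical
  set l := 1 + Real.log N with hl
  have hNr : (1:ℝ) ≤ N := by exact_mod_cast hN
  have hl1 : 1 ≤ l := by
    have := Real.log_nonneg hNr
    linarith
  have hRr : (1:ℝ) ≤ R := by exact_mod_cast hR
  have hvr : (v:ℝ) ≤ N := by exact_mod_cast hv
  have hinv := sum_inv_tot N
  rw [← hl] at hinv
  set G : ℕ → ℝ := fun f => if R < f then (2 * ∑ ψ ∈ Prim f, ‖PS v f ψ‖ ^ 2) / f else 0 with hG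
  have hG0 : ∀ f, 0 ≤ G f := by
    intro f
    simp only [hG]
    split_ifs
    · have : 0 ≤ ∑ ψ ∈ Prim f, ‖PS v f ψ‖ ^ 2 := sum_nonneg fun _ _ => by positivity
      positivity
    · exact le_rfl
  have hpt : ∀ d ∈ Icc 1 N, (1 / (d : ℝ)) * ∑ a ∈ rr d, ‖TT R v d a‖ ^ 2 ≤
      (1 / (Nat.totient d : ℝ)) * ∑ f ∈ d.divisors.filter (fun f => f ≠ 1), G f +
      8 * l ^ 2 * (1 / (Nat.totient d : ℝ)) := by
    intro d hd
    rw [mem_Icc] at hd
    have hdr : (1:ℝ) ≤ d := by exact_mod_cast hd.1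
    have hd0 : (0:ℝ) < d := by linarith
    have hφ1 : (1 : ℝ) ≤ Nat.totient d := by exact_mod_cast Nat.totient_pos.mpr (by omega)
    have hφ : (0 : ℝ) < Nat.totient d := by linarith
    have hφd : (Nat.totient d : ℝ) ≤ d := by exact_mod_cast Nat.totient_le d
    have h1 := TT_ms R d v hd.1
    have h2 := omega_log d hd.1
    have h3 : Real.log d ≤ Real.log N := Real.log_le_log hd0 (by exact_mod_cast hd.2)
    have h4 : (0:ℝ) ≤ d.primeFactors.card := Nat.cast_nonneg _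
    have h5 : (d.primeFactors.card : ℝ) ^ 2 ≤ 4 * l ^ 2 := by
      have : (d.primeFactors.card : ℝ) ≤ 2 * l := by linarith
      nlinarith
    refine (mul_le_mul_of_nonneg_left h1 (by positivity)).trans ?_
    rw [mul_add]
    refine add_le_add ?_ ?_
    · rw [← mul_assoc, mul_comm (1 / (d:ℝ)), mul_assoc]
      apply mul_le_mul_of_nonneg_left _ (by positivity)
      rw [mul_sum]
      apply sum_le_sum
      intro f hf
      rw [mem_filter, Nat.mem_divisors] at hf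
      have hf1 : 1 ≤ f := Nat.pos_of_dvd_of_pos hf.1.1 hd.1
      have hf0 : (0:ℝ) < f := by exact_mod_cast hf1
      have hfd : (f:ℝ) ≤ d := by exact_mod_cast Nat.le_of_dvd hd.1 hf.1.1
      simp only [hG]
      split_ifs
      · have : 0 ≤ ∑ ψ ∈ Prim f, ‖PS v f ψ‖ ^ 2 := sum_nonneg fun _ _ => by positivity
        rw [one_div, inv_mul_eq_div]
        gcongr
      · simp
    · have h6 : 1 / (d:ℝ) ≤ 1 / (Nat.totient d : ℝ) := by gcongr
      calc 1 / (d:ℝ) * (2 * (d.primeFactors.card : ℝ) ^ 2) ≤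
          (1 / (Nat.totient d : ℝ)) * (2 * (4 * l ^ 2)) := by gcongr
        _ = _ := by ring
  refine (sum_le_sum hpt).trans ?_
  rw [sum_add_distrib, ← mul_sum]
  have s1 := swap N G hG0
  have s2 : ∑ f ∈ Icc 2 N, (1 / (Nat.totient f : ℝ)) * G f * (1 + Real.log (N / f)) ^ 2 ≤
      l ^ 2 * ∑ f ∈ Ioc R N, (1 / (Nat.totient f : ℝ)) *
        ((2 * ∑ ψ ∈ Prim f, ‖PS v f ψ‖ ^ 2) / f) := by
    rw [mul_sum]
    have e1 : ∑ f ∈ Icc 2 N, (1 / (Nat.totient f : ℝ)) * G f * (1 + Real.log (N / f)) ^ 2 ≤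
        ∑ f ∈ Icc 2 N, if R < f then l ^ 2 * ((1 / (Nat.totient f : ℝ)) *
        ((2 * ∑ ψ ∈ Prim f, ‖PS v f ψ‖ ^ 2) / f)) else 0 := by
      apply sum_le_sum
      intro f hf
      rw [mem_Icc] at hf
      have hf0 : (1:ℝ) ≤ f := by
        have : 1 ≤ f := by omega
        exact_mod_cast this
      have hfN : (f:ℝ) ≤ N := by exact_mod_cast hf.2
      simp only [hG]
      split_ifs
      · have h0 : 0 ≤ ∑ ψ ∈ Prim f, ‖PS v f ψ‖ ^ 2 := sum_nonneg fun _ _ => by positivity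
        have h1 : 0 ≤ Real.log (N / f) := Real.log_nonneg (by rw [le_div_iff₀ (by linarith)]; linarith)
        have h2 : Real.log (N / f) ≤ Real.log N := by
          apply Real.log_le_log (by positivity)
          exact div_le_self (by linarith) hf0
        rw [mul_comm (l ^ 2)]
        apply mul_le_mul_of_nonneg_left _ (by positivity)
        apply pow_le_pow_left₀ (by linarith)
        linarith
      · simp
    refine e1.trans ?_
    rw [← sum_filter]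
    apply sum_le_sum_of_subset_of_nonneg
    · intro f hf
      rw [mem_filter, mem_Icc] at hf
      rw [mem_Ioc]
      exact ⟨hf.2, hf.1.2⟩
    · intro f _ _
      have h0 : 0 ≤ ∑ ψ ∈ Prim f, ‖PS v f ψ‖ ^ 2 := sum_nonneg fun _ _ => by positivity
      positivity
  have s3 : ∑ f ∈ Ioc R N, (1 / (Nat.totient f : ℝ)) *
        ((2 * ∑ ψ ∈ Prim f, ‖PS v f ψ‖ ^ 2) / f) ≤
      2 * l * (12 * (N:ℝ) ^ 2 / (R:ℝ) ^ 2 + 48 * N) := by
    set n := Nat.log 2 N + 1 with hn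
    have hsub : Ioc R N ⊆ Ioc R (R * 2 ^ n) := by
      apply Ioc_subset_Ioc_right
      have h1 : N < 2 ^ n := Nat.lt_pow_succ_log_self (by norm_num) N
      calc N ≤ 2 ^ n := h1.le
        _ ≤ R * 2 ^ n := Nat.le_mul_of_pos_left _ (by omega)
    refine (sum_le_sum_of_subset_of_nonneg hsub fun f _ _ => ?_).trans ?_
    · have h0 : 0 ≤ ∑ ψ ∈ Prim f, ‖PS v f ψ‖ ^ 2 := sum_nonneg fun _ _ => by positivity
      positivity
    rw [chain]
    have hb : ∀ i ∈ range n, ∑ f ∈ Ioc (R * 2 ^ i) (2 * (R * 2 ^ i)), (1 / (Nat.totient f : ℝ)) *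
        ((2 * ∑ ψ ∈ Prim f, ‖PS v f ψ‖ ^ 2) / f) ≤ 12 * (N:ℝ) ^ 2 / (R:ℝ) ^ 2 + 48 * N := by
      intro i _
      have h1 : R ≤ R * 2 ^ i := Nat.le_mul_of_pos_right R (by positivity)
      have h2 : (R:ℝ) ≤ ((R * 2 ^ i : ℕ) : ℝ) := by exact_mod_cast h1
      refine (block v (R * 2 ^ i) (by omega)).trans ?_
      gcongr
    refine (sum_le_sum hb).trans ?_
    rw [sum_const, card_range, nsmul_eq_mul]
    apply mul_le_mul_of_nonneg_right _ (by positivity)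
    have h1 := nlog_le N hN
    rw [hn]
    push_cast
    linarith
  have s4 : ∑ d ∈ Icc 1 N, 8 * l ^ 2 * (1 / (Nat.totient d : ℝ)) ≤ 8 * l ^ 2 * l ^ 2 := by
    rw [← mul_sum]
    gcongr
  have s4' : 8 * l ^ 2 * ∑ d ∈ Icc 1 N, (1 / (Nat.totient d : ℝ)) ≤ 8 * l ^ 2 * l ^ 2 := by
    gcongr
  set M : ℝ := 12 * (N:ℝ) ^ 2 / (R:ℝ) ^ 2 + 48 * N with hM
  have hM0 : 0 ≤ M := by positivity
  have s5 : l ^ 2 * ∑ f ∈ Ioc R N, (1 / (Nat.totient f : ℝ)) *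
        ((2 * ∑ ψ ∈ Prim f, ‖PS v f ψ‖ ^ 2) / f) ≤ l ^ 2 * (2 * l * M) := by gcongr
  have s6 : l ^ 2 * (2 * l * M) ≤ 2 * l ^ 4 * M := by
    have : l ^ 3 ≤ l ^ 4 := pow_le_pow_right₀ hl1 (by norm_num)
    nlinarith
  have s7 : 8 * l ^ 2 * l ^ 2 ≤ 8 * N * l ^ 4 := by
    have : 0 ≤ l ^ 4 := by positivity
    nlinarith
  have e : l ^ 4 * (24 * (N:ℝ) ^ 2 / (R:ℝ) ^ 2 + 104 * N) = 2 * l ^ 4 * M + 8 * N * l ^ 4 := by
    rw [hM]; ring
  rw [e]
  linarith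

/-- the small conductors, summed over the moduli -/
theorem small_sum (N R : ℕ) (hN : 1 ≤ N) (NN : Finset ℕ) (hne : NN.Nonempty) :
    ∑ d ∈ Icc 1 N, (1 / (Nat.totient d : ℝ)) * (∑ f ∈ d.divisors.filter (fun f => f ≠ 1),
        if f ≤ R then ∑ ψ ∈ Prim f, MX NN hne f ψ else 0) ≤
      (1 + Real.log N) ^ 2 * ∑ f ∈ Icc 2 R, (1 / (Nat.totient f : ℝ)) *
        ∑ ψ ∈ Prim f, MX NN hne f ψ := by
  classical
  have hNr : (1:ℝ) ≤ N := by exact_mod_cast hN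
  have hM : ∀ f, 0 ≤ ∑ ψ ∈ Prim f, MX NN hne f ψ := fun f =>
    sum_nonneg fun ψ _ => MX_nonneg _ _ _ _
  refine (swap N (fun f => if f ≤ R then ∑ ψ ∈ Prim f, MX NN hne f ψ else 0) (by
    intro f
    split_ifs
    · exact hM f
    · exact le_rfl)).trans ?_
  have e1 : ∑ f ∈ Icc 2 N, (1 / (Nat.totient f : ℝ)) *
      (if f ≤ R then ∑ ψ ∈ Prim f, MX NN hne f ψ else 0) * (1 + Real.log (N / f)) ^ 2 ≤
      ∑ f ∈ Icc 2 N, if f ≤ R then (1 + Real.log N) ^ 2 * ((1 / (Nat.totient f : ℝ)) *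
        ∑ ψ ∈ Prim f, MX NN hne f ψ) else 0 := by
    apply sum_le_sum
    intro f hf
    rw [mem_Icc] at hf
    have hf0 : (1:ℝ) ≤ f := by
      have : 1 ≤ f := by omega
      exact_mod_cast this
    have hfN : (f:ℝ) ≤ N := by exact_mod_cast hf.2
    split_ifs
    · have h1 : 0 ≤ Real.log (N / f) := Real.log_nonneg (by rw [le_div_iff₀ (by linarith)]; linarith)
      have h2 : Real.log (N / f) ≤ Real.log N := by
        apply Real.log_le_log (by positivity)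
        exact div_le_self (by linarith) hf0
      rw [mul_comm ((1 + Real.log N) ^ 2)]
      have := hM f
      apply mul_le_mul_of_nonneg_left _ (by positivity)
      apply pow_le_pow_left₀ (by linarith)
      linarith
    · simp
  refine e1.trans ?_
  rw [← sum_filter, mul_sum]
  apply sum_le_sum_of_subset_of_nonneg
  · intro f hf
    rw [mem_filter, mem_Icc] at hf
    rw [mem_Icc]
    exact ⟨hf.1.1, hf.2⟩
  · intro f _ _
    have := hM f
    positivity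

/-- the Bombieri-Vinogradov bound for the characters -/
theorem char_bv (U g : ℕ) : ∃ C : ℝ, 0 ≤ C ∧ ∃ x0 : ℕ, ∀ N : ℕ, x0 ≤ N → ∀ R : ℕ, 1 ≤ R →
    R ^ 2 ≤ N → ∀ NN : Finset ℕ, ∀ hne : NN.Nonempty, (∀ v ∈ NN, 2 ≤ v ∧ v ≤ N) →
    (NN.card : ℝ) ≤ (⌊Real.log N⌋₊ : ℝ) ^ g →
    ∑ f ∈ Icc 2 R, (1 / (Nat.totient f : ℝ)) * ∑ ψ ∈ Prim f, MX NN hne f ψ ≤
      C * (N / Real.log N ^ U + R * Real.sqrt N * Real.log (Real.log N) ^ 2) := by
  set V := U + 4 with hV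
  set b := V + 2 with hb
  obtain ⟨x1, hsm⟩ := small_total (U + 2) (b + 1)
  set C1 : ℝ := 9216 * ((2 * (g + V + 2) : ℕ) + 2) * ((g + V + 9 : ℕ) : ℝ) with hC1
  have hC1' : 0 ≤ C1 := by rw [hC1]; positivity
  have evl := floor_log_tendsto.eventually (ev_l V (g + V + 9) (2 * (g + V + 2)) C1)
  have evx : ∀ᶠ X : ℝ in atTop, (4:ℝ) ≤ Real.log X ∧ 4 ≤ X :=
    (Real.tendsto_log_atTop.eventually (eventually_ge_atTop 4)).and (eventually_ge_atTop 4)
  have evN := tendsto_natCast_atTop_atTop (R := ℝ) |>.eventually evx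
  obtain ⟨x0, hx0⟩ := eventually_atTop.1 (evl.and (evN.and (eventually_ge_atTop x1)))
  refine ⟨(1 + 2 ^ V) + 15 * C1, by positivity, x0, fun N hN R hR hR2 NN hne hmem2 hcard => ?_⟩
  obtain ⟨⟨l1, l2, l3⟩, ⟨w1, w5⟩, hNx1⟩ := hx0 N hN
  have hN4 : 4 ≤ N := by exact_mod_cast w5
  have hNr : (0:ℝ) < N := by linarith
  set Λ := Real.log N with hΛ
  set L := ⌊Λ⌋₊ with hL
  have hΛ0 : 0 < Λ := by linarith
  have hLΛ : (L:ℝ) ≤ Λ := Nat.floor_le hΛ0.le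
  have hL1 : Λ < L + 1 := Nat.lt_floor_add_one Λ
  have hL2 : Λ ≤ 2 * L := by linarith
  have hL3 : (3:ℝ) < L := by linarith
  have hL1' : 1 ≤ L := by
    have : (1:ℝ) ≤ L := by linarith
    exact_mod_cast this
  have hcond := cond_sum N R L V b Λ C1 U rfl w1 (by omega) hC1' hR hR2 hL1' rfl hLΛ hL2 NN hne
    (fun F0 hF0 => hsm N hNx1 F0 hF0 NN hne hmem2)
    (fun F hF1 hF2 => level_core V g L N F C1 hC1 l1 l2 l3 hLΛ hL1 NN hne
      (fun v hv => (hmem2 v hv).2) hcard hF1 hF2)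
  have hM : ∀ f, 0 ≤ ∑ ψ ∈ Prim f, MX NN hne f ψ := fun f =>
    sum_nonneg fun ψ _ => MX_nonneg _ _ _ _
  have h1 : ∑ f ∈ Icc 2 R, (1 / (Nat.totient f : ℝ)) * ∑ ψ ∈ Prim f, MX NN hne f ψ ≤
      ∑ d ∈ Icc 1 R, (1 / (Nat.totient d : ℝ)) * ∑ f ∈ d.divisors.filter (fun f => f ≠ 1),
        ∑ ψ ∈ Prim f, MX NN hne f ψ := by
    calc ∑ f ∈ Icc 2 R, (1 / (Nat.totient f : ℝ)) * ∑ ψ ∈ Prim f, MX NN hne f ψ
        ≤ ∑ d ∈ Icc 2 R, (1 / (Nat.totient d : ℝ)) * ∑ f ∈ d.divisors.filter (fun f => f ≠ 1),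
          ∑ ψ ∈ Prim f, MX NN hne f ψ := by
          apply sum_le_sum
          intro d hd
          rw [mem_Icc] at hd
          apply mul_le_mul_of_nonneg_left _ (by positivity)
          have hmem : d ∈ d.divisors.filter (fun f => f ≠ 1) := by
            rw [mem_filter, Nat.mem_divisors]
            exact ⟨⟨dvd_rfl, by omega⟩, by omega⟩
          exact single_le_sum (f := fun f => ∑ ψ ∈ Prim f, MX NN hne f ψ) (fun f _ => hM f) hmem
      _ ≤ _ := by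
          apply sum_le_sum_of_subset_of_nonneg
          · exact Icc_subset_Icc_left (by norm_num)
          · intro d _ _
            apply mul_nonneg (by positivity)
            exact sum_nonneg fun f _ => hM f
  refine h1.trans (hcond.trans ?_)
  have hu0 : 0 ≤ (N:ℝ) / Λ ^ U := by positivity
  have hw0 : 0 ≤ (R:ℝ) * Real.sqrt N * Real.log Λ ^ 2 := by positivity
  have z1 : 0 ≤ C1 * (N / Λ ^ U) := by positivity
  have z2 : 0 ≤ (1 + 2 ^ V : ℝ) * ((R:ℝ) * Real.sqrt N * Real.log Λ ^ 2) := by positivity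
  nlinarith

end Pool.Agent.H441R4.EH
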