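import Mathlib

/-! A lower bound for Euler's totient (copied from the team library `H442R2.EHI.Model`). -/

set_option autoImplicit false

namespace Pool.Agent.H441R4.EH

open Finset

theorem prod_lower (S : Finset ℕ) (hS : ∀ p ∈ S, 2 ≤ p) :
    1 / ((S.card : ℝ) + 1) ≤ ∏ p ∈ S, (1 - (p : ℝ)⁻¹) := by
  induction S using Finset.induction_on_max with
  | empty => simp
  | insert a S ha ih =>
    have hnot : a ∉ S := fun h => lt_irrefl _ (ha a h)
    have hcard : S.card + 2 ≤ a := by
      have hsub : S ⊆ Ico 2 a := by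
        intro p hp
        rw [mem_Ico]
        exact ⟨hS p (mem_insert_of_mem hp), ha p hp⟩
      have := card_le_card hsub
      rw [Nat.card_Ico] at this
      have := hS a (mem_insert_self a S)
      omega
    rw [prod_insert hnot, card_insert_of_notMem hnot]
    have h1 := ih (fun p hp => hS p (mem_insert_of_mem hp))
    have hc : ((S.card : ℝ) + 2) ≤ a := by exact_mod_cast hcard
    have hc0 : (0 : ℝ) ≤ S.card := by positivity
    have ha0 : (0 : ℝ) < a := by linarith
    have h2 : 1 - 1 / ((S.card : ℝ) + 2) ≤ 1 - (a : ℝ)⁻¹ := by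
      have : (a : ℝ)⁻¹ ≤ 1 / ((S.card : ℝ) + 2) := by
        rw [one_div]; gcongr
      linarith
    have h3 : 0 ≤ 1 - 1 / ((S.card : ℝ) + 2) := by
      rw [sub_nonneg, div_le_one (by linarith)]; linarith
    calc 1 / (((S.card + 1 : ℕ) : ℝ) + 1) = (1 - 1 / ((S.card : ℝ) + 2)) * (1 / ((S.card : ℝ) + 1)) := by
          push_cast
          field_simp
          ring
      _ ≤ (1 - (a : ℝ)⁻¹) * ∏ p ∈ S, (1 - (p : ℝ)⁻¹) :=
          mul_le_mul h2 h1 (by positivity) (h3.trans h2)

theorem tot_lower (k : ℕ) (hk : 1 ≤ k) : (k : ℝ) ≤ 2 * (1 + Real.log k) * (Nat.totient k : ℝ) := by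
  have h1 : (Nat.totient k : ℝ) = k * ∏ p ∈ k.primeFactors, (1 - (p : ℝ)⁻¹) := by
    have := Nat.totient_eq_mul_prod_factors k
    have h2 : (((Nat.totient k : ℕ) : ℚ) : ℝ) =
      (((k : ℚ) * ∏ p ∈ k.primeFactors, (1 - (p : ℚ)⁻¹) : ℚ) : ℝ) := by rw [this]
    push_cast at h2
    exact h2
  have h2 := prod_lower k.primeFactors (fun p hp => (Nat.prime_of_mem_primeFactors hp).two_le)
  have h3 : 2 ^ k.primeFactors.card ≤ k := by
    calc 2 ^ k.primeFactors.card ≤ ∏ p ∈ k.primeFactors, p :=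
          pow_card_le_prod _ _ _ (fun p hp => (Nat.prime_of_mem_primeFactors hp).two_le)
      _ ≤ k := Nat.le_of_dvd (by omega) (Nat.prod_primeFactors_dvd k)
  have hk0 : (0 : ℝ) < k := by exact_mod_cast hk
  have h4 : (k.primeFactors.card : ℝ) * Real.log 2 ≤ Real.log k := by
    have h5 : ((2 : ℝ) ^ k.primeFactors.card) ≤ k := by exact_mod_cast h3
    have h6 := Real.log_le_log (by positivity) h5
    rwa [Real.log_pow] at h6
  have h7 := Real.log_two_gt_d9
  have hlog : 0 ≤ Real.log k := Real.log_natCast_nonneg k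
  have hcard0 : (0 : ℝ) ≤ k.primeFactors.card := by positivity
  have h8 : (k.primeFactors.card : ℝ) + 1 ≤ 2 * (1 + Real.log k) := by nlinarith
  rw [h1]
  have h9 : 1 ≤ 2 * (1 + Real.log k) * ∏ p ∈ k.primeFactors, (1 - (p : ℝ)⁻¹) := by
    calc (1 : ℝ) = ((k.primeFactors.card : ℝ) + 1) * (1 / ((k.primeFactors.card : ℝ) + 1)) := by
          field_simp
      _ ≤ 2 * (1 + Real.log k) * ∏ p ∈ k.primeFactors, (1 - (p : ℝ)⁻¹) :=
          mul_le_mul h8 h2 (by positivity) (by positivity)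
  nlinarith

end Pool.Agent.H441R4.EH
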